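import Mathlib.GroupTheory.PushoutI
import Mathlib.Tactic

/-!
# Reduced products in an amalgamated product of two groups
-/

set_option autoImplicit false

namespace Pool.Agent.Q102.EXT

open Monoid Monoid.PushoutI

universe u v w

variable {H : Type u} [Group H] {G : Bool → Type v} [∀ i, Group (G i)] {φ : ∀ i, H →* G i}

/-- `Red φ a b n x`: the element `x` is a product of `n ≥ 1` syllables outside the base group,
taken alternately from the two factors, the first from the factor `a`, the last from `b`. -/
inductive Red (φ : ∀ i, H →* G i) : Bool → Bool → ℕ → PushoutI φ → Prop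
  | single (i : Bool) (g : G i) (hg : g ∉ (φ i).range) : Red φ i i 1 (of i g)
  | cons (i : Bool) (g : G i) (hg : g ∉ (φ i).range) {b : Bool} {n : ℕ} {x : PushoutI φ}
      (h : Red φ (!i) b n x) : Red φ i b (n + 1) (of i g * x)

theorem Red.pos {a b : Bool} {n : ℕ} {x : PushoutI φ} (h : Red φ a b n x) : 1 ≤ n := by
  cases h <;> omega

theorem Red.word {a b : Bool} {n : ℕ} {x : PushoutI φ} (h : Red φ a b n x) :
    ∃ w : CoprodI.Word G, Reduced φ w ∧ ofCoprodI w.prod = x ∧ w.toList.length = n ∧
      w.fstIdx = some a := by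
  induction h with
  | single i g hg =>
    have hg1 : g ≠ 1 := by
      rintro rfl
      exact hg (one_mem _)
    have hne : (CoprodI.Word.empty : CoprodI.Word G).fstIdx ≠ some i := by
      have : (CoprodI.Word.empty : CoprodI.Word G).fstIdx = none := rfl
      rw [this]
      exact Option.some_ne_none i |>.symm
    refine ⟨CoprodI.Word.cons g CoprodI.Word.empty hne hg1, ?_, ?_, ?_, ?_⟩
    · intro s hs
      have hs' : s = ⟨i, g⟩ := by
        have : s ∈ [(⟨i, g⟩ : Σ i, G i)] := hs
        simpa using this
      subst hs'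
      exact hg
    · rw [CoprodI.Word.prod_cons, CoprodI.Word.prod_empty, mul_one, PushoutI.ofCoprodI_of]
    · rfl
    · simp [CoprodI.Word.fstIdx, CoprodI.Word.cons]
  | cons i g hg h ih =>
    obtain ⟨w, hw, hwx, hwn, hwa⟩ := ih
    have hg1 : g ≠ 1 := by
      rintro rfl
      exact hg (one_mem _)
    refine ⟨CoprodI.Word.cons g w (by rw [hwa]; simp) hg1, ?_, ?_, ?_, ?_⟩
    · intro s hs
      simp only [CoprodI.Word.cons, List.mem_cons] at hs
      rcases hs with rfl | hs
      · exact hg
      · exact hw s hs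
    · simp [hwx]
    · simp [CoprodI.Word.cons, hwn]
    · simp [CoprodI.Word.fstIdx, CoprodI.Word.cons]

theorem Red.not_mem_base (hφ : ∀ i, Function.Injective (φ i)) {a b : Bool} {n : ℕ}
    {x : PushoutI φ} (h : Red φ a b n x) : x ∉ (base φ).range := by
  intro hx
  obtain ⟨w, hw, hwx, hwn, hwa⟩ := h.word
  rw [← hwx] at hx
  have := hw.eq_empty_of_mem_range hφ hx
  rw [this] at hwn
  have h1 := h.pos
  simp [CoprodI.Word.empty] at hwn
  omega

theorem Red.ne_one (hφ : ∀ i, Function.Injective (φ i)) {a b : Bool} {n : ℕ}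
    {x : PushoutI φ} (h : Red φ a b n x) : x ≠ 1 := by
  rintro rfl
  exact h.not_mem_base hφ (one_mem _)

theorem Red.uniq (hφ : ∀ i, Function.Injective (φ i)) {a b : Bool} {n : ℕ} {a' b' : Bool}
    {n' : ℕ} {x : PushoutI φ} (h : Red φ a b n x) (h' : Red φ a' b' n' x) : n = n' ∧ a = a' := by
  obtain ⟨w, hw, hwx, hwn, hwa⟩ := h.word
  obtain ⟨w', hw', hwx', hwn', hwa'⟩ := h'.word
  rcases NormalWord.transversal_nonempty φ hφ with ⟨d⟩
  obtain ⟨v, hv, hvm⟩ := hw.exists_normalWord_prod_eq d
  obtain ⟨v', hv', hvm'⟩ := hw'.exists_normalWord_prod_eq d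
  have hvv : v = v' := by
    apply NormalWord.prod_injective
    rw [hv, hv', hwx, hwx']
  subst hvv
  have hm : w.toList.map Sigma.fst = w'.toList.map Sigma.fst := by rw [← hvm, ← hvm']
  constructor
  · rw [← hwn, ← hwn', ← List.length_map (f := Sigma.fst) (as := w.toList), hm, List.length_map]
  · have : w.fstIdx = w'.fstIdx := by
      unfold CoprodI.Word.fstIdx
      rw [← List.head?_map, ← List.head?_map, hm]
    rw [hwa, hwa'] at this
    exact Option.some.inj this

theorem Red.mul {a b : Bool} {n : ℕ} {x : PushoutI φ} (h : Red φ a b n x) {c : Bool} {m : ℕ}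
    {y : PushoutI φ} (h' : Red φ (!b) c m y) : Red φ a c (n + m) (x * y) := by
  induction h with
  | single i g hg =>
    have := Red.cons i g hg h'
    rwa [add_comm] at this
  | cons i g hg h ih =>
    have := Red.cons i g hg (ih h')
    rw [mul_assoc]
    convert this using 1
    omega

theorem Red.inv {a b : Bool} {n : ℕ} {x : PushoutI φ} (h : Red φ a b n x) :
    Red φ b a n x⁻¹ := by
  induction h with
  | single i g hg =>
    have := Red.single (φ := φ) i g⁻¹ (by rwa [inv_mem_iff])
    rwa [map_inv] at this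
  | cons i g hg h ih =>
    have h1 := Red.single (φ := φ) i g⁻¹ (by rwa [inv_mem_iff])
    rw [map_inv] at h1
    rw [mul_inv_rev]
    refine Red.mul ih ?_
    rwa [Bool.not_not]

theorem Red.base_mul (h : H) {a b : Bool} {n : ℕ} {x : PushoutI φ} (hx : Red φ a b n x) :
    Red φ a b n (base φ h * x) := by
  cases hx with
  | single i g hg =>
    have := Red.single (φ := φ) _ (φ a h * g) (by
      rwa [Subgroup.mul_mem_cancel_left _ (MonoidHom.mem_range.2 ⟨h, rfl⟩)])
    rwa [map_mul, of_apply_eq_base] at this
  | cons i g hg h' =>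
    have := Red.cons (φ := φ) _ (φ a h * g) (by
      rwa [Subgroup.mul_mem_cancel_left _ (MonoidHom.mem_range.2 ⟨h, rfl⟩)]) h'
    rwa [map_mul, of_apply_eq_base, mul_assoc] at this

theorem Red.mul_base (h : H) {a b : Bool} {n : ℕ} {x : PushoutI φ} (hx : Red φ a b n x) :
    Red φ a b n (x * base φ h) := by
  have := (hx.inv.base_mul h⁻¹).inv
  rw [mul_inv_rev, inv_inv, map_inv, inv_inv] at this
  exact this

/-- Syllable length at most `n`. -/
inductive Syl (φ : ∀ i, H →* G i) : ℕ → PushoutI φ → Prop
  | nil (h : H) : Syl φ 0 (base φ h)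
  | cons (i : Bool) (g : G i) {n : ℕ} {x : PushoutI φ} (h : Syl φ n x) :
      Syl φ (n + 1) (of i g * x)

theorem Syl.base_mul (h : H) {n : ℕ} {x : PushoutI φ} (hx : Syl φ n x) :
    Syl φ n (base φ h * x) := by
  cases hx with
  | nil h' =>
    rw [← map_mul]
    exact Syl.nil _
  | cons i g h' =>
    have := Syl.cons (φ := φ) i (φ i h * g) h'
    rwa [map_mul, of_apply_eq_base, mul_assoc] at this

theorem Syl.mul {n : ℕ} {x : PushoutI φ} (hx : Syl φ n x) {m : ℕ} {y : PushoutI φ}
    (hy : Syl φ m y) : Syl φ (n + m) (x * y) := by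
  induction hx with
  | nil h =>
    rw [zero_add]
    exact hy.base_mul h
  | cons i g h ih =>
    have := Syl.cons i g ih
    rw [mul_assoc]
    convert this using 1
    omega

theorem Syl.of (i : Bool) (g : G i) : Syl φ 1 (of i g) := by
  have := Syl.cons (φ := φ) i g (Syl.nil 1)
  rwa [map_one, mul_one] at this

theorem exists_syl (x : PushoutI φ) : ∃ n, Syl φ n x := by
  induction x using PushoutI.induction_on with
  | of i g => exact ⟨1, Syl.of i g⟩
  | base h => exact ⟨0, Syl.nil h⟩
  | mul x y hx hy =>
    obtain ⟨n, hn⟩ := hx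
    obtain ⟨m, hm⟩ := hy
    exact ⟨n + m, hn.mul hm⟩

theorem Red.of_mul (i : Bool) (g : G i) {a b : Bool} {n : ℕ} {x : PushoutI φ}
    (hx : Red φ a b n x) : PushoutI.of i g * x ∈ (base φ).range ∨
      ∃ a' b' m, m ≤ n + 1 ∧ Red φ a' b' m (PushoutI.of i g * x) := by
  by_cases hg : g ∈ (φ i).range
  · obtain ⟨h, rfl⟩ := hg
    right
    rw [of_apply_eq_base]
    exact ⟨a, b, n, by omega, hx.base_mul h⟩
  · by_cases hia : a = i
    · subst hia
      cases hx with
      | single i g' hg' =>
        rw [← map_mul]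
        by_cases hgg : g * g' ∈ (φ a).range
        · left
          obtain ⟨h, hh⟩ := hgg
          rw [← hh, of_apply_eq_base]
          exact ⟨h, rfl⟩
        · right
          exact ⟨_, _, 1, by omega, Red.single _ _ hgg⟩
      | cons i g' hg' h' =>
        rename_i n' x'
        rw [← mul_assoc, ← map_mul]
        by_cases hgg : g * g' ∈ (φ a).range
        · right
          obtain ⟨h, hh⟩ := hgg
          rw [← hh, of_apply_eq_base]
          exact ⟨_, _, n', by omega, h'.base_mul h⟩
        · right
          exact ⟨_, _, n' + 1, by omega, Red.cons _ _ hgg h'⟩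
    · right
      have ha : a = !i := by
        cases a <;> cases i <;> simp_all
      subst ha
      exact ⟨_, _, n + 1, le_refl _, Red.cons i g hg hx⟩

theorem Syl.red {n : ℕ} {x : PushoutI φ} (hx : Syl φ n x) :
    x ∈ (base φ).range ∨ ∃ a b m, m ≤ n ∧ Red φ a b m x := by
  induction hx with
  | nil h => exact Or.inl ⟨h, rfl⟩
  | cons i g h ih =>
    rename_i n' x'
    rcases ih with ⟨h0, rfl⟩ | ⟨a, b, m, hm, hr⟩
    · by_cases hg : g ∈ (φ i).range
      · left
        obtain ⟨h1, rfl⟩ := hg
        rw [of_apply_eq_base, ← map_mul]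
        exact ⟨_, rfl⟩
      · right
        exact ⟨i, i, 1, by omega, (Red.single i g hg).mul_base h0⟩
    · rcases hr.of_mul i g with h1 | ⟨a', b', m', hm', hr'⟩
      · exact Or.inl h1
      · exact Or.inr ⟨a', b', m', by omega, hr'⟩

theorem dichotomy (x : PushoutI φ) :
    x ∈ (base φ).range ∨ ∃ a b m, Red φ a b m x := by
  obtain ⟨n, hn⟩ := exists_syl x
  rcases hn.red with h | ⟨a, b, m, _, h⟩
  · exact Or.inl h
  · exact Or.inr ⟨a, b, m, h⟩

/-- Split off the last syllable. -/
theorem Red.snoc {a b : Bool} {n : ℕ} {x : PushoutI φ} (h : Red φ a b n x) :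
    (n = 1 ∧ a = b ∧ ∃ g : G b, g ∉ (φ b).range ∧ x = PushoutI.of b g) ∨
    ∃ (m : ℕ) (y : PushoutI φ) (g : G b), n = m + 1 ∧ Red φ a (!b) m y ∧ g ∉ (φ b).range ∧
      x = y * PushoutI.of b g := by
  induction h with
  | single i g hg => exact Or.inl ⟨rfl, rfl, g, hg, rfl⟩
  | cons i g hg h ih =>
    right
    rename_i b' n' x'
    rcases ih with ⟨hn, hab, g', hg', hx⟩ | ⟨m, y, g', hn, hy, hg', hx⟩
    · subst hab
      refine ⟨1, PushoutI.of i g, g', by omega, ?_, hg', by rw [hx]⟩
      have := Red.single (φ := φ) i g hg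
      convert this using 1
      exact Bool.not_not i
    · refine ⟨m + 1, PushoutI.of i g * y, g', by omega, Red.cons i g hg hy, hg', ?_⟩
      rw [hx, mul_assoc]

theorem Red.pow {a : Bool} {n : ℕ} {x : PushoutI φ} (h : Red φ a (!a) n x) (k : ℕ) :
    Red φ a (!a) (n * (k + 1)) (x ^ (k + 1)) := by
  induction k with
  | zero => simpa using h
  | succ k ih =>
    rw [pow_succ]
    have := ih.mul (c := !a) (m := n) (y := x) (by rwa [Bool.not_not])
    convert this using 1
    ring

/-- An element of order two is conjugate into a factor. -/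
theorem exists_conj_of_sq (hφ : ∀ i, Function.Injective (φ i)) (x : PushoutI φ)
    (hx : x * x = 1) : ∃ (p : PushoutI φ) (i : Bool) (g : G i), x = p * PushoutI.of i g * p⁻¹ := by
  rcases dichotomy x with ⟨h, rfl⟩ | ⟨a, b, n, hr⟩
  · exact ⟨1, true, φ true h, by rw [of_apply_eq_base]; simp⟩
  · induction n using Nat.strong_induction_on generalizing a b x with
    | _ n ih =>
      by_cases hab : a = b
      · subst hab
        cases hr with
        | single i g hg => exact ⟨1, a, g, by simp⟩
        | cons i g hg h' =>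
          rename_i n' x'
          rcases h'.snoc with ⟨_, hne, _⟩ | ⟨m, y, g', hn, hy, hg', hx'⟩
          · exact absurd hne (by simp)
          · -- x = g y g'
            subst hx'
            have hconj : (PushoutI.of a g)⁻¹ * (PushoutI.of a g * (y * PushoutI.of a g')) *
                PushoutI.of a g = y * PushoutI.of a (g' * g) := by
              rw [map_mul]; group
            have hsq : (y * PushoutI.of a (g' * g)) * (y * PushoutI.of a (g' * g)) = 1 := by
              rw [← hconj]
              calc _ = (PushoutI.of a g)⁻¹ * ((PushoutI.of a g * (y * PushoutI.of a g')) *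
                    (PushoutI.of a g * (y * PushoutI.of a g'))) * PushoutI.of a g := by group
                _ = 1 := by rw [hx]; group
            have key : ∃ (p : PushoutI φ) (i : Bool) (g₁ : G i),
                y * PushoutI.of a (g' * g) = p * PushoutI.of i g₁ * p⁻¹ := by
              by_cases hgg : g' * g ∈ (φ a).range
              · obtain ⟨h0, hh⟩ := hgg
                rw [← hh, of_apply_eq_base] at hsq ⊢
                exact ih m (by omega) _ hsq _ _ (hy.mul_base h0)
              · exfalso
                have h1 : Red φ (!a) a (m + 1) (y * PushoutI.of a (g' * g)) := by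
                  refine hy.mul ?_
                  rw [Bool.not_not]
                  exact Red.single _ _ hgg
                have h2 := h1.mul h1
                exact h2.ne_one hφ hsq
            obtain ⟨p, i, g₁, hp⟩ := key
            refine ⟨PushoutI.of a g * p, i, g₁, ?_⟩
            have : PushoutI.of a g * (y * PushoutI.of a g') =
                PushoutI.of a g * (y * PushoutI.of a (g' * g)) * (PushoutI.of a g)⁻¹ := by
              rw [← hconj]; group
            rw [this, hp]
            group
      · exfalso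
        have hb : b = !a := by cases a <;> cases b <;> simp_all
        subst hb
        have := hr.mul (c := !a) (m := n) (y := x) (by rwa [Bool.not_not])
        exact this.ne_one hφ hx

/-- If `y` is an element of the factor `i` not conjugate there into the base group, and a
conjugate of `y` lies in a factor, then this is the factor `i` and the conjugating element lies
in it. -/
theorem of_conj (hφ : ∀ i, Function.Injective (φ i)) {i : Bool} (y : G i)
    (hy : ∀ g : G i, g * y * g⁻¹ ∉ (φ i).range) (p : PushoutI φ) {j : Bool} (z : G j)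
    (h : p * PushoutI.of i y * p⁻¹ = PushoutI.of j z) :
    j = i ∧ ∃ q : G i, p = PushoutI.of i q := by
  -- it is enough to treat reduced p not ending in i
  have main : ∀ (a : Bool) (n : ℕ) (q : PushoutI φ) (y' : G i), y' ∉ (φ i).range →
      Red φ a (!i) n q → q * PushoutI.of i y' * q⁻¹ ≠ PushoutI.of j z := by
    intro a n q y' hy' hq he
    have h1 : Red φ a a (n + 1 + n) (q * PushoutI.of i y' * q⁻¹) := by
      refine Red.mul (b := i) ?_ hq.inv
      refine hq.mul ?_
      rw [Bool.not_not]
      exact Red.single _ _ hy'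
    have hn := hq.pos
    by_cases hz : z ∈ (φ j).range
    · obtain ⟨h0, rfl⟩ := hz
      rw [he, of_apply_eq_base] at h1
      exact h1.not_mem_base hφ ⟨h0, rfl⟩
    · rw [he] at h1
      have := (h1.uniq hφ (Red.single j z hz)).1
      omega
  rcases dichotomy p with ⟨h0, rfl⟩ | ⟨a, b, n, hr⟩
  · have hp : (base φ h0 : PushoutI φ) = PushoutI.of i (φ i h0) := (of_apply_eq_base φ i h0).symm
    refine ⟨?_, φ i h0, hp⟩
    by_contra hji
    have h1 : PushoutI.of (φ := φ) j z ∈ (PushoutI.of j).range ⊓ (PushoutI.of i).range := by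
      refine ⟨⟨z, rfl⟩, ⟨φ i h0 * y * (φ i h0)⁻¹, ?_⟩⟩
      rw [← h, hp]; simp
    rw [inf_of_range_eq_base_range hφ hji] at h1
    obtain ⟨h2, hh2⟩ := h1
    apply hy (φ i h0)
    refine ⟨h2, ?_⟩
    apply of_injective hφ i
    rw [of_apply_eq_base, hh2, ← h, hp]
    simp
  · by_cases hb : b = !i
    · subst hb
      exfalso
      have h1 := hy 1
      rw [one_mul, inv_one, mul_one] at h1
      exact main a n p y h1 hr h
    · have hb : b = i := by cases b <;> cases i <;> simp_all
      subst hb
      rcases hr.snoc with ⟨_, _, g, hg, hx⟩ | ⟨m, q, g, hn, hq, hg, hx⟩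
      · subst hx
        refine ⟨?_, g, rfl⟩
        by_contra hji
        have h1 : PushoutI.of (φ := φ) j z ∈ (PushoutI.of j).range ⊓ (PushoutI.of b).range := by
          refine ⟨⟨z, rfl⟩, ⟨g * y * g⁻¹, ?_⟩⟩
          rw [← h]; simp
        rw [inf_of_range_eq_base_range hφ hji] at h1
        obtain ⟨h2, hh2⟩ := h1
        apply hy g
        refine ⟨h2, ?_⟩
        apply of_injective hφ b
        rw [of_apply_eq_base, hh2, ← h]
        simp
      · exfalso
        subst hx
        refine main a m q (g * y * g⁻¹) (hy g) hq ?_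
        rw [← h]
        simp [mul_assoc]

/-- A cyclically reduced element of length at least two has no conjugate in a factor. -/
theorem Red.not_conj (hφ : ∀ i, Function.Injective (φ i)) {a : Bool} {n : ℕ} {x : PushoutI φ}
    (h : Red φ a (!a) n x) (p : PushoutI φ) (i : Bool) (z : G i) :
    x ≠ p * PushoutI.of i z * p⁻¹ := by
  intro hx
  obtain ⟨m₁, h₁⟩ := exists_syl p
  obtain ⟨m₂, h₂⟩ := exists_syl p⁻¹
  have hpow : ∀ k : ℕ, x ^ k = p * PushoutI.of i (z ^ k) * p⁻¹ := by
    intro k
    rw [hx, conj_pow, map_pow]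
  have hk := h.pow (m₁ + 1 + m₂)
  have hs := (h₁.mul (Syl.of i (z ^ (m₁ + 1 + m₂ + 1)))).mul h₂
  rw [← hpow] at hs
  rcases hs.red with hb | ⟨a', b', m, hm, hr⟩
  · exact hk.not_mem_base hφ hb
  · have := (hk.uniq hφ hr).1
    have hn := h.pos
    nlinarith

theorem Red.pow_ne (hφ : ∀ i, Function.Injective (φ i)) {a : Bool} {n : ℕ} {x : PushoutI φ}
    (h : Red φ a (!a) n x) (k : ℤ) (hk : k ≠ 0) (p : PushoutI φ) (i : Bool) (z : G i) :
    x ^ k ≠ p * PushoutI.of i z * p⁻¹ := by
  intro hx
  obtain ⟨m, hm | hm⟩ := Int.eq_nat_or_neg k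
  · subst hm
    obtain ⟨m, rfl⟩ : ∃ m', m = m' + 1 := ⟨m - 1, by omega⟩
    rw [zpow_natCast] at hx
    exact (h.pow m).not_conj hφ p i z hx
  · subst hm
    obtain ⟨m, rfl⟩ : ∃ m', m = m' + 1 := ⟨m - 1, by omega⟩
    rw [zpow_neg, zpow_natCast] at hx
    apply (h.pow m).not_conj hφ p i z⁻¹
    rw [← inv_inj, hx, map_inv]
    group

end Pool.Agent.Q102.EXT
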