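import Mathlib.SetTheory.Ordinal.Basic
import Mathlib.SetTheory.Cardinal.Arithmetic
import Mathlib.Tactic

/-!
# The combinatorial part: a set which is not carried into itself by any of the given maps
-/

set_option autoImplicit false

namespace Pool.Agent.Q102.EXT

open Cardinal

universe u

theorem exists_cand {G I : Type u} (hG : ℵ₀ ≤ #G) (hI : #I ≤ #G) (τ : I → G → G)
    (hτ : ∀ i, Function.Injective (τ i)) (hD : ∀ i, #{x // τ i x ≠ x} = #G)
    (r : I → I → Prop) (hr : ∀ i, #{j // r j i} < #I) (i : I) (f : ∀ j, r j i → G) :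
    ∃ x, τ i x ≠ x ∧ ∀ j (h : r j i), x ≠ τ j (f j h) ∧ τ i x ≠ f j h := by
  by_contra hcon
  push Not at hcon
  have h1 : ∀ x : {x // τ i x ≠ x}, ∃ e : {j // r j i} ⊕ {j // r j i},
      (∃ j : {j // r j i}, e = Sum.inl j ∧ x.1 = τ j.1 (f j.1 j.2)) ∨
      (∃ j : {j // r j i}, e = Sum.inr j ∧ τ i x.1 = f j.1 j.2) := by
    rintro ⟨x, hx⟩
    obtain ⟨j, h, hj⟩ := hcon x hx
    by_cases hxj : x = τ j (f j h)
    · exact ⟨Sum.inl ⟨j, h⟩, Or.inl ⟨⟨j, h⟩, rfl, hxj⟩⟩
    · exact ⟨Sum.inr ⟨j, h⟩, Or.inr ⟨⟨j, h⟩, rfl, hj hxj⟩⟩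
  choose e he using h1
  have hinj : Function.Injective e := by
    intro x y hxy
    apply Subtype.ext
    rcases he x with ⟨j, hj, hx⟩ | ⟨j, hj, hx⟩ <;> rcases he y with ⟨k, hk, hy⟩ | ⟨k, hk, hy⟩
    · rw [hj, hk] at hxy
      cases hxy
      rw [hx, hy]
    · rw [hj, hk] at hxy
      cases hxy
    · rw [hj, hk] at hxy
      cases hxy
    · rw [hj, hk] at hxy
      cases hxy
      exact hτ i (hx.trans hy.symm)
  have h2 := mk_le_of_injective hinj
  rw [hD i, mk_sum, lift_id] at h2
  exact absurd h2 (not_le.2 (add_lt_of_lt hG ((hr i).trans_le hI) ((hr i).trans_le hI)))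

theorem exists_free {G I : Type u} (hG : ℵ₀ ≤ #G) (hI : #I ≤ #G) (τ : I → G → G)
    (hτ : ∀ i, Function.Injective (τ i)) (hD : ∀ i, #{x // τ i x ≠ x} = #G) :
    ∃ X : Set G, ∀ i, ∃ x ∈ X, τ i x ∉ X := by
  classical
  obtain ⟨r, wo, hr⟩ := exists_ord_eq I
  have hr' : ∀ i, #{j // r j i} < #I := fun i => card_typein_lt i hr
  have wf : WellFounded r := wo.wf
  let F : ∀ i, (∀ j, r j i → G) → G := fun i f =>
    Classical.choose (exists_cand hG hI τ hτ hD r hr' i f)
  have hF : ∀ i f, τ i (F i f) ≠ F i f ∧ ∀ j (h : r j i), F i f ≠ τ j (f j h) ∧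
      τ i (F i f) ≠ f j h := fun i f =>
    Classical.choose_spec (exists_cand hG hI τ hτ hD r hr' i f)
  let g : I → G := wf.fix F
  have hg : ∀ i, g i = F i (fun j _ => g j) := fun i => wf.fix_eq F i
  refine ⟨Set.range g, fun i => ⟨g i, ⟨i, rfl⟩, ?_⟩⟩
  rintro ⟨j, hj⟩
  have h1 := hF i (fun j _ => g j)
  rw [← hg] at h1
  rcases trichotomous_of r i j with hij | rfl | hij
  · have h2 := hF j (fun j _ => g j)
    rw [← hg] at h2
    exact (h2.2 i hij).1 hj
  · exact h1.1 hj.symm
  · exact (h1.2 j hij).2 hj.symm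

/-- If for all functions `r` on the group `G` there are `u`, `s` such that the map
`k ↦ u⁻¹ * α k * u * s` does not decrease `r`, then `α` is an inner automorphism. -/
theorem inner_of_forall {G : Type u} [Group G] (α : G →* G) (hα : Function.Injective α)
    (H : ∀ r : G → ℕ, ∃ u s : G, ∀ k, r k ≤ r (u⁻¹ * α k * u * s)) :
    ∃ c, ∀ g, α g = c * g * c⁻¹ := by
  classical
  have hinj : ∀ u s : G, Function.Injective fun k => u⁻¹ * α k * u * s := by
    intro u s x y hxy
    simp only [mul_left_inj, mul_right_inj] at hxy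
    exact hα hxy
  rcases finite_or_infinite G with hfin | hinf
  · have := Fintype.ofFinite G
    obtain ⟨u, s, hus⟩ := H (fun k => (Fintype.equivFin G k : ℕ))
    have hbij := (Finite.injective_iff_bijective.1 (hinj u s))
    have hsum : ∑ k, (Fintype.equivFin G (u⁻¹ * α k * u * s) : ℕ) =
        ∑ k, (Fintype.equivFin G k : ℕ) :=
      hbij.sum_comp (fun k => (Fintype.equivFin G k : ℕ))
    have heq := (Finset.sum_eq_sum_iff_of_le (fun k _ => hus k)).1 hsum.symm
    have hfix : ∀ k, u⁻¹ * α k * u * s = k := by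
      intro k
      apply (Fintype.equivFin G).injective
      apply Fin.ext
      exact (heq k (Finset.mem_univ k)).symm
    have hs : s = 1 := by
      have := hfix 1
      simpa using this
    refine ⟨u, fun g => ?_⟩
    have := hfix g
    rw [hs, mul_one] at this
    nth_rewrite 2 [← this]
    group
  · by_contra hcon
    push Not at hcon
    have hG : ℵ₀ ≤ #G := aleph0_le_mk G
    have hD : ∀ i : G × G, #{x // i.1⁻¹ * α x * i.1 * i.2 ≠ x} = #G := by
      rintro ⟨u, s⟩
      simp only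
      apply le_antisymm (mk_subtype_le _)
      by_contra hlt
      rw [not_le] at hlt
      obtain ⟨t, ht⟩ := hcon u
      have h1 : #{x // u⁻¹ * α x * u * s = x} ≤ #{x // u⁻¹ * α x * u * s ≠ x} := by
        refine mk_le_of_injective (f := fun x => ⟨t * x.1, ?_⟩) ?_
        · intro hx
          apply ht
          rw [map_mul] at hx
          have h2 : u⁻¹ * α t * u * (u⁻¹ * α x.1 * u * s) = t * x.1 := by
            rw [← hx]; group
          rw [x.2, mul_left_inj] at h2
          calc α t = u * (u⁻¹ * α t * u) * u⁻¹ := by group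
            _ = u * t * u⁻¹ := by rw [h2]
        · intro x y hxy
          simp only [Subtype.mk.injEq, mul_right_inj] at hxy
          exact Subtype.ext hxy
      have h2 : #{x // u⁻¹ * α x * u * s = x} + #{x // u⁻¹ * α x * u * s ≠ x} = #G := by
        have := mk_sum_compl {x | u⁻¹ * α x * u * s = x}
        exact this
      have h3 := add_lt_of_lt hG (h1.trans_lt hlt) hlt
      rw [h2] at h3
      exact lt_irrefl _ h3
    have hI : #(G × G) ≤ #G := by
      rw [mk_prod, lift_id, mul_eq_self hG]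
    obtain ⟨X, hX⟩ := exists_free hG hI (fun i k => i.1⁻¹ * α k * i.1 * i.2)
      (fun i => hinj i.1 i.2) hD
    obtain ⟨u, s, hus⟩ := H (fun k => if k ∈ X then 1 else 0)
    obtain ⟨x, hx, hx'⟩ := hX (u, s)
    have := hus x
    simp only [hx, hx', if_true, if_false] at this
    omega

end Pool.Agent.Q102.EXT
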