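import Pool.Agent.Q102.EXT.Two

/-!
# The double amalgam
-/

set_option autoImplicit false

namespace Pool.Agent.Q102.EXT

open Monoid

universe u v w

theorem zpowersHom_injective {P : Type u} [Group P] {w : P} (hw : ∀ k : ℤ, w ^ k = 1 → k = 0) :
    Function.Injective (zpowersHom P w) := by
  rw [injective_iff_map_eq_one]
  intro k hk
  rw [zpowersHom_apply] at hk
  have := hw _ hk
  exact this

/-- `ULift`ed integers. -/
abbrev ZZ : Type u := ULift.{u} (Multiplicative ℤ)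

/-- The homomorphism with `1 ↦ w`. -/
def zh {P : Type u} [Group P] (w : P) : ZZ.{u} →* P :=
  (zpowersHom P w).comp MulEquiv.ulift.toMonoidHom

theorem zh_apply {P : Type u} [Group P] (w : P) (n : ZZ.{u}) :
    zh w n = w ^ (Multiplicative.toAdd n.down) := by
  simp only [zh, MonoidHom.comp_apply, zpowersHom_apply]
  rfl

theorem zh_one {P : Type u} [Group P] (w : P) : zh w ⟨Multiplicative.ofAdd 1⟩ = w := by
  rw [zh_apply]
  simp

theorem zh_injective {P : Type u} [Group P] {w : P} (hw : ∀ k : ℤ, w ^ k = 1 → k = 0) :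
    Function.Injective (zh w) :=
  (zpowersHom_injective hw).comp MulEquiv.ulift.injective

theorem zz_sq (n : ZZ.{u}) (h : n * n = 1) : n = 1 := by
  have h1 : n.down * n.down = 1 := congrArg ULift.down h
  have h2 : Multiplicative.toAdd n.down + Multiplicative.toAdd n.down = 0 := h1
  have h3 : Multiplicative.toAdd n.down = 0 := by omega
  apply ULift.ext
  exact h3

section

variable {G L B R S : Type u} [Group G] [Group L] [Group B] [CommRing R] [CommRing S]

/-- The first amalgam. -/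
abbrev P1 (bL : B →* L) (bM : B →* EL R) : Type u := Am bL bM

/-- The element of infinite order. -/
def ww (bL : B →* L) (bM : B →* EL R) (y : EL R) (x : L) : P1 bL bM :=
  inB bL bM y * inA bL bM x

/-- The second amalgam. -/
abbrev P2 (bL : B →* L) (bM : B →* EL R) (y : EL R) (x : L) (n₁ : EL S) : Type u :=
  Am (zh (ww bL bM y x)) (zh n₁)

/-- The inclusion of the first amalgam into the second. -/
def j1 (bL : B →* L) (bM : B →* EL R) (y : EL R) (x : L) (n₁ : EL S) :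
    P1 bL bM →* P2 bL bM y x n₁ :=
  inA (zh (ww bL bM y x)) (zh n₁)

/-- The inclusion of the other factor. -/
def j2 (bL : B →* L) (bM : B →* EL R) (y : EL R) (x : L) (n₁ : EL S) :
    EL S →* P2 bL bM y x n₁ :=
  inB (zh (ww bL bM y x)) (zh n₁)

theorem j1_ww (bL : B →* L) (bM : B →* EL R) (y : EL R) (x : L) (n₁ : EL S) :
    j1 bL bM y x n₁ (ww bL bM y x) = j2 bL bM y x n₁ n₁ := by
  have := inA_eq_inB (a := zh (ww bL bM y x)) (b := zh n₁) ⟨Multiplicative.ofAdd 1⟩
  rwa [zh_one, zh_one] at this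

variable {bL : B →* L} {bM : B →* EL R} {y : EL R} {x : L} {n₁ : EL S}

theorem ww_zpow (hbL : Function.Injective bL) (hbM : Function.Injective bM)
    (hx : x ∉ bL.range) (hy : y ∉ bM.range) (k : ℤ) (hk : ww bL bM y x ^ k = 1) : k = 0 := by
  by_contra hk0
  exact zpow_ne_one hbL hbM hx hy k hk0 hk

theorem notconjA (hbL : Function.Injective bL) (hbM : Function.Injective bM)
    (hx : x ∉ bL.range) (hy : y ∉ bM.range) {l : L} (hl : l ≠ 1) (g : P1 bL bM) :
    g * inA bL bM l * g⁻¹ ∉ (zh (ww bL bM y x)).range := by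
  rintro ⟨n, hn⟩
  rw [zh_apply] at hn
  by_cases hk : Multiplicative.toAdd n.down = 0
  · rw [hk, zpow_zero] at hn
    apply hl
    apply inA_injective hbL hbM
    rw [map_one]
    calc inA bL bM l = g⁻¹ * (g * inA bL bM l * g⁻¹) * g := by group
      _ = 1 := by rw [← hn]; group
  · exact zpow_ne_A hbL hbM hx hy _ hk g l hn

theorem notconjB (hbL : Function.Injective bL) (hbM : Function.Injective bM)
    (hx : x ∉ bL.range) (hy : y ∉ bM.range) {l : EL R} (hl : l ≠ 1) (g : P1 bL bM) :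
    g * inB bL bM l * g⁻¹ ∉ (zh (ww bL bM y x)).range := by
  rintro ⟨n, hn⟩
  rw [zh_apply] at hn
  by_cases hk : Multiplicative.toAdd n.down = 0
  · rw [hk, zpow_zero] at hn
    apply hl
    apply inB_injective hbL hbM
    rw [map_one]
    calc inB bL bM l = g⁻¹ * (g * inB bL bM l * g⁻¹) * g := by group
      _ = 1 := by rw [← hn]; group
  · exact zpow_ne_B hbL hbM hx hy _ hk g l hn

theorem core (hbL : Function.Injective bL) (hbM : Function.Injective bM)
    (hB : ∀ b : B, b * b = 1 → b = 1) (h2R : IsUnit (2 : R)) (h2S : IsUnit (2 : S))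
    (hy : y ∉ bM.range) (hn₁ : ∀ k : ℤ, n₁ ^ k = 1 → k = 0)
    (hRL : ∀ (θ : EL R →* L) (m : EL R), θ m = 1) (hSL : ∀ (θ : EL S →* L) (m : EL S), θ m = 1)
    (hRS : ∀ (θ : EL R →* EL S) (m : EL R), θ m = 1)
    (hι : x ∉ bL.range) (x' : L) (hx' : ∀ l : L, l * x' * l⁻¹ ∉ bL.range)
    (b₁ b' : B) (hb : x * bL b₁ * x⁻¹ = bL b')
    (hkill : ∀ (T : Type u) [Group T] (θ : EL R →* T), θ (bM b₁) = 1 → θ y = 1)
    (β : P2 bL bM y x n₁ →* P2 bL bM y x n₁)
    (hβ : β (j1 bL bM y x n₁ (inA bL bM x)) = j1 bL bM y x n₁ (inA bL bM x')) :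
    ∃ (h₁ : P1 bL bM) (θ : EL R →* EL R), θ (bM b₁) ≠ 1 ∧
      ∀ m, β (j1 bL bM y x n₁ (inB bL bM m)) =
        j1 bL bM y x n₁ (h₁ * inB bL bM (θ m) * h₁⁻¹) := by
  have hzP : Function.Injective (zh (ww bL bM y x)) := zh_injective (ww_zpow hbL hbM hι hy)
  have hzN : Function.Injective (zh n₁) := zh_injective hn₁
  have hj1 : Function.Injective (j1 bL bM y x n₁) := inA_injective hzP hzN
  have hx'1 : x' ≠ 1 := by
    rintro rfl
    exact hx' 1 (by simp)
  have hv : ∀ g : P1 bL bM, g * inA bL bM x' * g⁻¹ ∉ (zh (ww bL bM y x)).range :=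
    notconjA hbL hbM hι hy hx'1
  -- first step
  have hβ1 : β (j1 bL bM y x n₁ (inB bL bM (bM b₁))) ≠ 1 := by
    intro h0
    have h1 : β (j1 bL bM y x n₁ (inB bL bM y)) = 1 :=
      hkill _ (β.comp ((j1 bL bM y x n₁).comp (inB bL bM))) h0
    have h2 : β (j2 bL bM y x n₁ n₁) = j1 bL bM y x n₁ (inA bL bM x') := by
      rw [← j1_ww]
      change β (j1 bL bM y x n₁ (inB bL bM y * inA bL bM x)) = _
      rw [map_mul, map_mul, h1, one_mul, hβ]
    have hne : β (j2 bL bM y x n₁ n₁) ≠ 1 := by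
      rw [h2]
      intro h3
      apply hx'1
      apply inA_injective hbL hbM
      apply hj1
      rw [h3, map_one, map_one]
    rcases rigid2 hzP hzN zz_sq h2S (β.comp (j2 bL bM y x n₁)) ⟨n₁, hne⟩ with
      ⟨p, θ', hθ'⟩ | ⟨p, θ', hθ'⟩
    · have h3 := hθ' n₁
      rw [MonoidHom.comp_apply, h2] at h3
      have h4 : p⁻¹ * j1 bL bM y x n₁ (inA bL bM x') * p⁻¹⁻¹ = j1 bL bM y x n₁ (θ' n₁) := by
        rw [h3]
        change p⁻¹ * (p * j1 bL bM y x n₁ (θ' n₁) * p⁻¹) * p⁻¹⁻¹ = _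
        group
      obtain ⟨q, hq⟩ := conjA hzP hzN hv h4
      change p⁻¹ = j1 bL bM y x n₁ q at hq
      rw [hq, ← map_inv, ← map_mul, ← map_mul] at h4
      have h5 := hj1 h4
      have hne' : θ' n₁ ≠ 1 := by
        intro h6
        rw [h6] at h5
        apply hx'1
        apply inA_injective hbL hbM
        rw [map_one]
        calc inA bL bM x' = q⁻¹ * (q * inA bL bM x' * q⁻¹) * q := by group
          _ = 1 := by rw [h5]; group
      rcases rigid2 hbL hbM hB h2S θ' ⟨n₁, hne'⟩ with ⟨p', θ'', h''⟩ | ⟨p', θ'', h''⟩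
      · apply hne'
        rw [h'', hSL θ'', map_one]
        group
      · have h7 := h'' n₁
        rw [← h5] at h7
        refine conjA' hbL hbM hx' (p := p'⁻¹ * q) (z := θ'' n₁) ?_
        calc p'⁻¹ * q * inA bL bM x' * (p'⁻¹ * q)⁻¹ = p'⁻¹ * (q * inA bL bM x' * q⁻¹) * p' := by
              group
          _ = _ := by rw [h7]; group
    · have h3 := hθ' n₁
      rw [MonoidHom.comp_apply, h2] at h3
      refine conjA' hzP hzN hv (p := p⁻¹) (z := θ' n₁) ?_
      change p⁻¹ * j1 bL bM y x n₁ (inA bL bM x') * p⁻¹⁻¹ = _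
      rw [h3]
      group
  -- second step
  obtain ⟨h, θ₂, hθ₂⟩ : ∃ (h : P2 bL bM y x n₁) (θ : EL R →* EL R),
      ∀ m, β (j1 bL bM y x n₁ (inB bL bM m)) = h * j1 bL bM y x n₁ (inB bL bM (θ m)) * h⁻¹ := by
    rcases rigid2 hzP hzN zz_sq h2R (β.comp ((j1 bL bM y x n₁).comp (inB bL bM)))
      ⟨bM b₁, hβ1⟩ with ⟨p, θ', hθ'⟩ | ⟨p, θ', hθ'⟩
    · have hne' : θ' (bM b₁) ≠ 1 := by
        intro h0
        apply hβ1
        have h1 := hθ' (bM b₁)
        rw [h0, map_one] at h1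
        rw [MonoidHom.comp_apply, MonoidHom.comp_apply] at h1
        rw [h1]
        group
      rcases rigid2 hbL hbM hB h2R θ' ⟨bM b₁, hne'⟩ with ⟨p', θ'', h''⟩ | ⟨p', θ'', h''⟩
      · exfalso
        apply hne'
        rw [h'', hRL θ'', map_one]
        group
      · refine ⟨p * j1 bL bM y x n₁ p', θ'', fun m => ?_⟩
        have h1 := hθ' m
        rw [h''] at h1
        change β (j1 bL bM y x n₁ (inB bL bM m)) =
          p * j1 bL bM y x n₁ (p' * inB bL bM (θ'' m) * p'⁻¹) * p⁻¹ at h1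
        rw [h1, map_mul, map_mul, map_inv]
        group
    · exfalso
      apply hβ1
      have h1 := hθ' (bM b₁)
      rw [hRS θ', map_one] at h1
      rw [MonoidHom.comp_apply, MonoidHom.comp_apply] at h1
      rw [h1]
      group
  -- third step
  have hc : θ₂ (bM b₁) ≠ 1 := by
    intro h0
    apply hβ1
    rw [hθ₂, h0, map_one, map_one]
    group
  have h3 : inA bL bM x * inB bL bM (bM b₁) * (inA bL bM x)⁻¹ = inB bL bM (bM b') := by
    rw [← inA_eq_inB, ← inA_eq_inB, ← map_inv, ← map_mul, ← map_mul, hb]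
  have h4 := congrArg (fun z => β (j1 bL bM y x n₁ z)) h3
  simp only [map_mul, map_inv] at h4
  rw [hθ₂, hθ₂, hβ] at h4
  have h5 : (h⁻¹ * j1 bL bM y x n₁ (inA bL bM x') * h) *
      j1 bL bM y x n₁ (inB bL bM (θ₂ (bM b₁))) *
      (h⁻¹ * j1 bL bM y x n₁ (inA bL bM x') * h)⁻¹ =
      j1 bL bM y x n₁ (inB bL bM (θ₂ (bM b'))) := by
    calc _ = h⁻¹ * (j1 bL bM y x n₁ (inA bL bM x') *
          (h * j1 bL bM y x n₁ (inB bL bM (θ₂ (bM b₁))) * h⁻¹) *
          (j1 bL bM y x n₁ (inA bL bM x'))⁻¹) * h := by group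
      _ = _ := by rw [h4]; group
  obtain ⟨q, hq⟩ := conjA hzP hzN (notconjB hbL hbM hι hy hc) h5
  have h6 : h⁻¹ * j1 bL bM y x n₁ (inA bL bM x') * h⁻¹⁻¹ = j1 bL bM y x n₁ q := by
    rw [inv_inv]
    exact hq
  obtain ⟨q', hq'⟩ := conjA hzP hzN hv h6
  change h⁻¹ = j1 bL bM y x n₁ q' at hq'
  refine ⟨q'⁻¹, θ₂, hc, fun m => ?_⟩
  rw [hθ₂, hq', map_mul, map_mul, inv_inv, map_inv, ← hq', inv_inv]

end

end Pool.Agent.Q102.EXT
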