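import Mathlib.LinearAlgebra.Matrix.SpecialLinearGroup
import Mathlib.SetTheory.Cardinal.Basic
import Mathlib.Tactic
import Pool.Agent.Q102.EXT.Amalgam

/-!
# The elementary group of degree three over a commutative ring
-/

set_option autoImplicit false

namespace Pool.Agent.Q102.EXT

open Matrix

universe u v w

/-- The special linear group of degree three. -/
abbrev SL3 (R : Type u) [CommRing R] : Type u := Matrix.SpecialLinearGroup (Fin 3) R

/-- The subgroup generated by the elementary matrices. -/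
def EL (R : Type u) [CommRing R] : Subgroup (SL3 R) :=
  Subgroup.closure {x | ∃ (i j : Fin 3) (h : i ≠ j) (c : R),
    x = Matrix.SpecialLinearGroup.transvection h c}

variable {R : Type u} [CommRing R]

/-- The elementary matrix with entry `c` at the place `(i, j)`. -/
def uu {i j : Fin 3} (h : i ≠ j) (c : R) : EL R :=
  ⟨Matrix.SpecialLinearGroup.transvection h c, Subgroup.subset_closure ⟨i, j, h, c, rfl⟩⟩

theorem coe_uu {i j : Fin 3} (h : i ≠ j) (c : R) :
    ((uu h c : EL R) : SL3 R) = Matrix.SpecialLinearGroup.transvection h c := rfl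

theorem uu_add {i j : Fin 3} (h : i ≠ j) (c d : R) : uu h (c + d) = uu h c * uu h d := by
  apply Subtype.ext
  rw [Subgroup.coe_mul]
  exact Matrix.SpecialLinearGroup.transvection_add h c d

theorem uu_zero {i j : Fin 3} (h : i ≠ j) : uu h (0 : R) = 1 := by
  apply Subtype.ext
  exact Matrix.SpecialLinearGroup.transvection_coeff_zero h

theorem uu_neg {i j : Fin 3} (h : i ≠ j) (c : R) : uu h (-c) = (uu h c)⁻¹ := by
  rw [eq_inv_iff_mul_eq_one, ← uu_add, neg_add_cancel, uu_zero]

theorem uu_sub {i j : Fin 3} (h : i ≠ j) (c d : R) : uu h (c - d) = uu h c * (uu h d)⁻¹ := by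
  rw [sub_eq_add_neg, uu_add, uu_neg]

theorem comm_uu {i j k : Fin 3} (hij : i ≠ j) (hjk : j ≠ k) (hik : i ≠ k) (x y : R) :
    uu hij x * uu hjk y * (uu hij x)⁻¹ * (uu hjk y)⁻¹ = uu hik (x * y) := by
  rw [mul_inv_eq_iff_eq_mul, mul_inv_eq_iff_eq_mul]
  apply Subtype.ext
  apply Subtype.ext
  simp only [Subgroup.coe_mul, coe_uu, Matrix.SpecialLinearGroup.coe_mul,
    Matrix.SpecialLinearGroup.transvection_coe, mul_add, add_mul, mul_one, one_mul,
    Matrix.single_mul_single_same, Matrix.single_mul_single_of_ne _ _ _ _ hjk.symm,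
    Matrix.single_mul_single_of_ne _ _ _ _ hik.symm, add_zero]
  abel

theorem EL_induction {p : EL R → Prop} (hu : ∀ (i j : Fin 3) (h : i ≠ j) (c : R), p (uu h c))
    (h1 : p 1) (hmul : ∀ x y, p x → p y → p (x * y)) (hinv : ∀ x, p x → p x⁻¹) (x : EL R) :
    p x := by
  obtain ⟨x, hx⟩ := x
  refine Subgroup.closure_induction (p := fun x hx => p ⟨x, hx⟩) ?_ ?_ ?_ ?_ hx
  · rintro x ⟨i, j, h, c, rfl⟩
    exact hu i j h c
  · exact h1
  · intro x y hx hy ihx ihy
    exact hmul ⟨x, hx⟩ ⟨y, hy⟩ ihx ihy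
  · intro x hx ih
    exact hinv ⟨x, hx⟩ ih

theorem EL_triv {T : Type v} [Group T] (θ : EL R →* T)
    (h : ∀ (i j : Fin 3) (h : i ≠ j) (c : R), θ (uu h c) = 1) (x : EL R) : θ x = 1 := by
  induction x using EL_induction with
  | hu i j hij c => exact h i j hij c
  | h1 => exact map_one θ
  | hmul x y hx hy => rw [map_mul, hx, hy, mul_one]
  | hinv x hx => rw [map_inv, hx, inv_one]

theorem kill {T : Type v} [Group T] (θ : EL R →* T) {i j : Fin 3} (h : i ≠ j) (x : R)
    (hx : θ (uu h x) = 1) {i' j' : Fin 3} (h' : i' ≠ j') (y : R) : θ (uu h' (x * y)) = 1 := by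
  obtain ⟨k, hik, hjk⟩ : ∃ k, i ≠ k ∧ j ≠ k := by
    clear hx h'
    revert i j
    decide
  -- moves
  have mv1 : ∀ (a b c : Fin 3), a ≠ b → b ≠ c → a ≠ c →
      (∀ (h : a ≠ b) (y : R), θ (uu h (x * y)) = 1) →
      ∀ (h : a ≠ c) (y : R), θ (uu h (x * y)) = 1 := by
    intro a b c hab hbc hac H h y
    rw [← mul_one (x * y), ← comm_uu hab hbc h, map_mul, map_mul, map_mul, map_inv, map_inv,
      H hab y]
    simp
  have mv2 : ∀ (a b c : Fin 3), a ≠ b → b ≠ c → a ≠ c →
      (∀ (h : a ≠ b) (y : R), θ (uu h (x * y)) = 1) →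
      ∀ (h : c ≠ b) (y : R), θ (uu h (x * y)) = 1 := by
    intro a b c hab hbc hac H h y
    rw [← one_mul (x * y), ← comm_uu hac.symm hab h, map_mul, map_mul, map_mul, map_inv, map_inv,
      H hab y]
    simp
  have h1 : ∀ (h : i ≠ k) (y : R), θ (uu h (x * y)) = 1 := by
    intro hik y
    rw [← comm_uu h hjk hik, map_mul, map_mul, map_mul, map_inv, map_inv, hx]
    simp
  have h2 := mv2 i k j hik hjk.symm h h1
  have h3 := mv1 j k i hjk hik.symm h.symm h2
  have h4 := mv2 j i k h.symm hik hjk h3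
  have h5 := mv1 k i j hik.symm h hjk.symm h4
  have h6 := mv2 k j i hjk.symm h.symm hik.symm h5
  have hi' : i' = i ∨ i' = j ∨ i' = k := by
    clear hx h1 h2 h3 h4 h5 h6 mv1 mv2 h'
    revert i j k i'
    decide
  have hj' : j' = i ∨ j' = j ∨ j' = k := by
    clear hx h1 h2 h3 h4 h5 h6 mv1 mv2 h' hi'
    revert i j k j'
    decide
  rcases hi' with rfl | rfl | rfl <;> rcases hj' with rfl | rfl | rfl
  · exact absurd rfl h'
  · exact h6 h' y
  · exact h1 h' y
  · exact h3 h' y
  · exact absurd rfl h'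
  · exact h2 h' y
  · exact h4 h' y
  · exact h5 h' y
  · exact absurd rfl h'

theorem triv_of_unit {T : Type v} [Group T] (θ : EL R →* T) {i j : Fin 3} (h : i ≠ j) (x : R)
    (hu : IsUnit x) (hx : θ (uu h x) = 1) (m : EL R) : θ m = 1 := by
  apply EL_triv
  intro i' j' h' c
  obtain ⟨y, hy⟩ := hu.exists_right_inv
  have := kill θ h x hx h' (y * c)
  rwa [← mul_assoc, hy, one_mul] at this

theorem triv_of_not_injective {T : Type v} [Group T] (θ : EL R →* T) {Λ : Type w} (ι : Λ → R)
    (hι : ∀ a b, a ≠ b → IsUnit (ι a - ι b)) {i j : Fin 3} (h : i ≠ j)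
    (hc : ¬ Function.Injective fun a => θ (uu h (ι a))) (m : EL R) : θ m = 1 := by
  rw [Function.Injective] at hc
  push Not at hc
  obtain ⟨a, b, hab, hne⟩ := hc
  refine triv_of_unit θ h (ι a - ι b) (hι a b hne) ?_ m
  rw [uu_sub, map_mul, map_inv]
  rw [hab, mul_inv_cancel]

theorem triv_of_card {T : Type v} [Group T] (θ : EL R →* T) {Λ : Type v} (ι : Λ → R)
    (hι : ∀ a b, a ≠ b → IsUnit (ι a - ι b)) (hc : Cardinal.mk T < Cardinal.mk Λ) (m : EL R) :
    θ m = 1 := by
  apply triv_of_not_injective θ ι hι (show (0 : Fin 3) ≠ 1 by decide)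
  intro hinj
  exact absurd (Cardinal.mk_le_of_injective hinj) (not_le.2 hc)

/-- The diagonal matrix with the entry `1` at the place `k` and the entries `-1` elsewhere. -/
def ed (k : Fin 3) : SL3 R :=
  ⟨Matrix.diagonal fun a => if a = k then 1 else -1, by
    rw [Matrix.det_diagonal]
    fin_cases k <;> simp [Fin.prod_univ_three]⟩

theorem coe_ed (k : Fin 3) : ((ed k : SL3 R) : Matrix (Fin 3) (Fin 3) R) =
    Matrix.diagonal fun a => if a = k then 1 else -1 := rfl

theorem ed_eq (i j k : Fin 3) (hij : i ≠ j) (hik : i ≠ k) (hjk : j ≠ k) :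
    (Matrix.diagonal fun a => if a = k then 1 else -1 : Matrix (Fin 3) (Fin 3) R) =
      1 - Matrix.single i i 1 - Matrix.single i i 1 - Matrix.single j j 1 -
        Matrix.single j j 1 := by
  have h3 : ∀ a : Fin 3, a = i ∨ a = j ∨ a = k := by
    revert i j k
    decide
  ext a b
  simp only [Matrix.sub_apply, Matrix.diagonal_apply, Matrix.one_apply, Matrix.single_apply]
  by_cases hab : a = b
  · subst hab
    rcases h3 a with rfl | rfl | rfl
    · simp [hij.symm, hik]
    · simp [hij, hjk]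
    · simp [hik, hjk]
  · have h1 : ∀ c : Fin 3, ¬ (c = a ∧ c = b) := by
      rintro c ⟨rfl, rfl⟩
      exact hab rfl
    simp [hab, h1]

theorem ed_mem (k : Fin 3) : (ed k : SL3 R) ∈ EL R := by
  obtain ⟨i, j, hij, hik, hjk⟩ : ∃ i j : Fin 3, i ≠ j ∧ i ≠ k ∧ j ≠ k := by
    revert k
    decide
  have key : (ed k : SL3 R) =
      ((uu hij (1 : R) * (uu hij.symm (1 : R))⁻¹ * uu hij (1 : R)) *
        (uu hij (1 : R) * (uu hij.symm (1 : R))⁻¹ * uu hij (1 : R)) : EL R) := by
    rw [← uu_neg]
    apply Subtype.ext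
    have hn : Matrix.single j i (-1 : R) = - Matrix.single j i (1 : R) := by
      rw [Matrix.single_neg]
    have hw : (((uu hij (1 : R) * (uu hij.symm (-1 : R)) * uu hij (1 : R) : EL R) : SL3 R) :
        Matrix (Fin 3) (Fin 3) R) = 1 - Matrix.single i i 1 - Matrix.single j j 1 +
          Matrix.single i j 1 - Matrix.single j i 1 := by
      simp only [Subgroup.coe_mul, coe_uu, Matrix.SpecialLinearGroup.coe_mul,
        Matrix.SpecialLinearGroup.transvection_coe, hn, mul_add, add_mul, mul_one, one_mul,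
        mul_neg, neg_mul, Matrix.single_mul_single_same,
        Matrix.single_mul_single_of_ne _ _ _ _ hij.symm]
      abel
    rw [Subgroup.coe_mul, Matrix.SpecialLinearGroup.coe_mul, hw, coe_ed,
      ed_eq i j k hij hik hjk]
    simp only [mul_add, add_mul, mul_sub, sub_mul, mul_one, one_mul, Matrix.single_mul_single_same,
        Matrix.single_mul_single_of_ne _ _ _ _ hij,
        Matrix.single_mul_single_of_ne _ _ _ _ hij.symm]
    abel
  rw [key]
  exact Subtype.property _

/-- The diagonal involutions as elements of the elementary group. -/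
def ee (k : Fin 3) : EL R := ⟨ed k, ed_mem k⟩

theorem coe_ee (k : Fin 3) : ((ee k : EL R) : SL3 R) = ed k := rfl

theorem ee_mul_self (k : Fin 3) : (ee k : EL R) * ee k = 1 := by
  apply Subtype.ext
  apply Subtype.ext
  simp only [Subgroup.coe_mul, coe_ee, Matrix.SpecialLinearGroup.coe_mul, coe_ed,
    Matrix.diagonal_mul_diagonal, Subgroup.coe_one, Matrix.SpecialLinearGroup.coe_one]
  rw [← Matrix.diagonal_one]
  congr 1
  ext a
  split_ifs <;> simp

theorem ee_comm (k l : Fin 3) : (ee k : EL R) * ee l = ee l * ee k := by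
  apply Subtype.ext
  apply Subtype.ext
  simp only [Subgroup.coe_mul, coe_ee, Matrix.SpecialLinearGroup.coe_mul, coe_ed,
    Matrix.diagonal_mul_diagonal]
  congr 1
  ext a
  ring

theorem ee_uu_of {i j : Fin 3} (h : i ≠ j) (k : Fin 3) (x y : R)
    (hxy : (if i = k then (1 : R) else -1) * x = y * (if j = k then (1 : R) else -1)) :
    (ee k : EL R) * uu h x = uu h y * ee k := by
  apply Subtype.ext
  apply Subtype.ext
  simp only [Subgroup.coe_mul, coe_ee, coe_uu, Matrix.SpecialLinearGroup.coe_mul, coe_ed,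
    Matrix.SpecialLinearGroup.transvection_coe, mul_add, add_mul, mul_one, one_mul]
  congr 1
  ext a b
  rw [Matrix.diagonal_mul, Matrix.mul_diagonal, Matrix.single_apply, Matrix.single_apply]
  by_cases hab : i = a ∧ j = b
  · obtain ⟨rfl, rfl⟩ := hab
    simpa using hxy
  · rw [if_neg hab, if_neg hab, mul_zero, zero_mul]

theorem ee_uu {i j k : Fin 3} (h : i ≠ j) (hik : i ≠ k) (hjk : j ≠ k) (x : R) :
    (ee k : EL R) * uu h x = uu h x * ee k := by
  apply ee_uu_of
  rw [if_neg hik, if_neg hjk]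
  ring

theorem ee_uu' {i k : Fin 3} (h : i ≠ k) (x : R) :
    (ee k : EL R) * uu h x = uu h (-x) * ee k := by
  apply ee_uu_of
  rw [if_neg h, if_pos rfl]
  ring

/-- A homomorphism that kills one of the involutions is trivial, if two is invertible. -/
theorem triv_of_ee {T : Type v} [Group T] (θ : EL R →* T) (h2 : IsUnit (2 : R)) (k : Fin 3)
    (hk : θ (ee k) = 1) (m : EL R) : θ m = 1 := by
  obtain ⟨i, hik⟩ : ∃ i : Fin 3, i ≠ k := exists_ne k
  refine triv_of_unit θ hik (2 : R) h2 ?_ m
  have h1 := congrArg θ (ee_uu' hik (1 : R))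
  rw [map_mul, map_mul, hk, one_mul, mul_one, uu_neg, map_inv] at h1
  have h3 : (2 : R) = 1 + 1 := by norm_num
  rw [h3, uu_add, map_mul]
  nth_rewrite 2 [h1]
  rw [mul_inv_cancel]

open Monoid

/-- **Rigidity.** If two is invertible in `R` and the base group has no elements of order two, then
a nontrivial homomorphism from the elementary group over `R` to the amalgamated product has its
image in a conjugate of a factor. -/
theorem rigid {H : Type u} [Group H] {G : Bool → Type v} [∀ i, Group (G i)] {φ : ∀ i, H →* G i}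
    (hφ : ∀ i, Function.Injective (φ i)) (hH : ∀ h : H, h * h = 1 → h = 1)
    {R : Type w} [CommRing R] (h2 : IsUnit (2 : R)) (θ : EL R →* PushoutI φ)
    (hθ : ∃ m, θ m ≠ 1) :
    ∃ (p : PushoutI φ) (i : Bool) (θ' : EL R →* G i), ∀ m, θ m = p * PushoutI.of i (θ' m) * p⁻¹ := by
  have hne : ∀ k, θ (ee k) ≠ 1 := by
    intro k hk
    obtain ⟨m, hm⟩ := hθ
    exact hm (triv_of_ee θ h2 k hk m)
  have hsq : ∀ k, θ (ee k) * θ (ee k) = 1 := by
    intro k
    rw [← map_mul, ee_mul_self, map_one]
  obtain ⟨p, i, g, hg⟩ := exists_conj_of_sq hφ (θ (ee 0)) (hsq 0)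
  -- centralisers
  have cent : ∀ (g : G i), g * g = 1 → g ≠ 1 → ∀ x : PushoutI φ,
      x * (p * PushoutI.of i g * p⁻¹) = (p * PushoutI.of i g * p⁻¹) * x →
      ∃ q : G i, x = p * PushoutI.of i q * p⁻¹ := by
    intro g hgg hg1 x hx
    have hy : ∀ g' : G i, g' * g * g'⁻¹ ∉ (φ i).range := by
      rintro g' ⟨h0, hh0⟩
      have h3 : h0 = 1 := by
        apply hH
        apply hφ i
        rw [map_mul, hh0, map_one]
        calc _ = g' * (g * g) * g'⁻¹ := by group
          _ = 1 := by rw [hgg]; group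
      rw [h3, map_one] at hh0
      apply hg1
      calc g = g'⁻¹ * (g' * g * g'⁻¹) * g' := by group
        _ = 1 := by rw [← hh0]; group
    obtain ⟨-, q, hq⟩ := of_conj hφ g hy (p⁻¹ * x * p) (j := i) g (by
      calc p⁻¹ * x * p * PushoutI.of i g * (p⁻¹ * x * p)⁻¹
          = p⁻¹ * (x * (p * PushoutI.of i g * p⁻¹)) * x⁻¹ * p := by group
        _ = PushoutI.of i g := by rw [hx]; group)
    refine ⟨q, ?_⟩
    rw [← hq]
    group
  have hconj : ∀ k, ∃ q : G i, θ (ee k) = p * PushoutI.of i q * p⁻¹ := by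
    intro k
    have hg1 : g ≠ 1 := by
      rintro rfl
      apply hne 0
      rw [hg, map_one]
      group
    have hgg : g * g = 1 := by
      apply PushoutI.of_injective hφ i
      have h3 := hsq 0
      rw [hg] at h3
      rw [map_mul, map_one]
      calc _ = p⁻¹ * (p * PushoutI.of i g * p⁻¹ * (p * PushoutI.of i g * p⁻¹)) * p := by group
        _ = 1 := by rw [h3]; group
    apply cent g hgg hg1
    rw [← hg, ← map_mul, ← map_mul, ee_comm]
  have hall : ∀ m, ∃ q : G i, θ m = p * PushoutI.of i q * p⁻¹ := by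
    intro m
    induction m using EL_induction with
    | hu a b hab c =>
      obtain ⟨k, hik, hjk⟩ : ∃ k, a ≠ k ∧ b ≠ k := by
        revert a b
        clear * -
        decide
      obtain ⟨q, hq⟩ := hconj k
      have hq1 : q ≠ 1 := by
        rintro rfl
        apply hne k
        rw [hq, map_one]
        group
      have hqq : q * q = 1 := by
        apply PushoutI.of_injective hφ i
        have h3 := hsq k
        rw [hq] at h3
        rw [map_mul, map_one]
        calc _ = p⁻¹ * (p * PushoutI.of i q * p⁻¹ * (p * PushoutI.of i q * p⁻¹)) * p := by group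
          _ = 1 := by rw [h3]; group
      apply cent q hqq hq1
      rw [← hq, ← map_mul, ← map_mul, ee_uu hab hik hjk]
    | h1 => exact ⟨1, by simp⟩
    | hmul x y hx hy =>
      obtain ⟨q, hq⟩ := hx
      obtain ⟨q', hq'⟩ := hy
      refine ⟨q * q', ?_⟩
      rw [map_mul, hq, hq', map_mul]
      group
    | hinv x hx =>
      obtain ⟨q, hq⟩ := hx
      refine ⟨q⁻¹, ?_⟩
      rw [map_inv, hq, map_inv]
      group
  choose θ' hθ' using hall
  refine ⟨p, i, MonoidHom.mk' θ' ?_, hθ'⟩
  intro a b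
  apply PushoutI.of_injective hφ i
  have h3 := hθ' (a * b)
  rw [map_mul, hθ' a, hθ' b] at h3
  rw [map_mul]
  calc PushoutI.of i (θ' (a * b)) = p⁻¹ * (p * PushoutI.of i (θ' (a * b)) * p⁻¹) * p := by group
    _ = _ := by rw [← h3]; group

end Pool.Agent.Q102.EXT
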