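import Mathlib.Algebra.MvPolynomial.Basic
import Mathlib.RingTheory.Localization.FractionRing
import Mathlib.Algebra.Field.Subfield.Basic
import Mathlib.SetTheory.Cardinal.Subfield
import Mathlib.Tactic

/-!
# Subfields of increasing cardinalities
-/

set_option autoImplicit false

namespace Pool.Agent.Q102.EXT

open Cardinal

universe u

/-- A strictly increasing sequence of cardinals. -/
noncomputable def card (κ : Cardinal.{u}) : ℕ → Cardinal.{u}
  | 0 => 2 ^ (max ℵ₀ κ)
  | n + 1 => 2 ^ (card κ n)

theorem aleph0_le_card (κ : Cardinal.{u}) (n : ℕ) : ℵ₀ ≤ card κ n := by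
  induction n with
  | zero => exact (le_max_left _ _).trans (cantor _).le
  | succ n ih => exact ih.trans (cantor _).le

theorem exists_fields (κ : Cardinal.{u}) : ∃ (K : Type u) (_ : Field K) (_ : CharZero K)
    (F : ℕ → Subfield K), κ < #(F 0) ∧ ∀ m n, m < n → #(F m) < #(F n) := by
  classical
  let I : Type u := Σ n : ℕ, (card κ n).out
  let K : Type u := FractionRing (MvPolynomial I ℚ)
  let x : I → K := fun i => algebraMap (MvPolynomial I ℚ) K (MvPolynomial.X i)
  have hx : Function.Injective x :=
    (IsFractionRing.injective (MvPolynomial I ℚ) K).comp (MvPolynomial.X_injective)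
  have hc : CharZero K := charZero_of_injective_algebraMap (IsFractionRing.injective (MvPolynomial I ℚ) K)
  let S : ℕ → Set K := fun n => Set.range fun t : (card κ n).out => x ⟨n, t⟩
  let F : ℕ → Subfield K := fun n => Subfield.closure (S n)
  have hS : ∀ n, #(S n) = card κ n := by
    intro n
    have h1 : Function.Injective fun t : (card κ n).out => x ⟨n, t⟩ := by
      intro t t' htt
      exact sigma_mk_injective (β := fun n => (card κ n).out) (i := n) (hx htt)
    rw [mk_range_eq _ h1, mk_out]
  have hF : ∀ n, #(F n) = card κ n := by
    intro n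
    apply le_antisymm
    · refine (Subfield.cardinalMk_closure_le_max (S n)).trans ?_
      rw [hS n]
      exact max_le le_rfl (aleph0_le_card κ n)
    · rw [← hS n]
      exact mk_le_mk_of_subset Subfield.subset_closure
  refine ⟨K, inferInstance, hc, F, ?_, ?_⟩
  · rw [hF]
    exact (le_max_right _ _).trans_lt (cantor _)
  · intro m n hmn
    have : StrictMono (card κ) := strictMono_nat_of_lt_succ fun n => cantor _
    rw [hF, hF]
    exact this hmn

end Pool.Agent.Q102.EXT
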