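import Mathlib.GroupTheory.SemidirectProduct
import Mathlib.SetTheory.Cardinal.Arithmetic
import Pool.Agent.Q102.EXT.Core

/-!
# The groups of the construction
-/

set_option autoImplicit false

namespace Pool.Agent.Q102.EXT

open Monoid Cardinal

universe u v w

/-! ### The wreath product -/

section wreath

variable (G : Type u) [Group G]

/-- The translation action of `G` on the functions on `G`. -/
def shift (T : Type v) [Group T] : G →* MulAut (G → T) where
  toFun g :=
    { toFun := fun b j => b (g⁻¹ * j)
      invFun := fun b j => b (g * j)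
      left_inv := fun b => by funext j; simp
      right_inv := fun b => by funext j; simp
      map_mul' := fun b c => rfl }
  map_one' := by
    ext b j
    simp
  map_mul' g h := by
    ext b j
    simp [mul_assoc]

theorem shift_apply (T : Type v) [Group T] (g : G) (b : G → T) (j : G) :
    shift G T g b j = b (g⁻¹ * j) := rfl

/-- The unrestricted wreath product. -/
abbrev Wr (T : Type v) [Group T] : Type (max u v) := SemidirectProduct (G → T) G (shift G T)

variable {G}

/-- A homomorphism of the groups induces a homomorphism of the wreath products. -/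
def wrMap {T : Type v} {T' : Type w} [Group T] [Group T'] (f : T →* T') : Wr G T →* Wr G T' :=
  SemidirectProduct.map (f.compLeft G) (MonoidHom.id G) (by
    intro g
    ext b j
    rfl)

theorem wr_conj {T : Type v} [Group T] (z : Wr G T) (c d : G → T) (g : G)
    (h : (SemidirectProduct.inr g : Wr G T) * (z * SemidirectProduct.inl c * z⁻¹) *
      (SemidirectProduct.inr g)⁻¹ = z * SemidirectProduct.inl d * z⁻¹) (s : G) (hs : c s ≠ 1) :
    d (z.right⁻¹ * g * z.right * s) ≠ 1 := by
  intro hd
  have h1 : (z⁻¹ * SemidirectProduct.inr g * z) * SemidirectProduct.inl c =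
      SemidirectProduct.inl d * (z⁻¹ * SemidirectProduct.inr g * z) := by
    calc _ = z⁻¹ * ((SemidirectProduct.inr g : Wr G T) * (z * SemidirectProduct.inl c * z⁻¹) *
          (SemidirectProduct.inr g)⁻¹) * SemidirectProduct.inr g * z := by group
      _ = _ := by rw [h]; group
  set y : Wr G T := z⁻¹ * SemidirectProduct.inr g * z with hy
  have hyr : y.right = z.right⁻¹ * g * z.right := by
    rw [hy]
    simp
  clear_value y
  have h2 := congrArg SemidirectProduct.left h1
  rw [SemidirectProduct.mul_left, SemidirectProduct.mul_left] at h2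
  have h3 := congrFun h2 (y.right * s)
  simp only [SemidirectProduct.left_inl, SemidirectProduct.right_inl, Pi.mul_apply,
    shift_apply, map_one, MulAut.one_apply, inv_mul_cancel_left] at h3
  rw [hyr, hd, one_mul] at h3
  apply hs
  exact mul_eq_left.1 h3

end wreath

/-! ### Facts on the elementary groups -/

theorem h01 : (0 : Fin 3) ≠ 1 := by decide
theorem h10 : (1 : Fin 3) ≠ 0 := by decide
theorem h12 : (1 : Fin 3) ≠ 2 := by decide
theorem h02 : (0 : Fin 3) ≠ 2 := by decide

section EL

variable {R : Type u} [CommRing R]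

/-- The elementary matrices at a fixed place. -/
def uuHom {i j : Fin 3} (h : i ≠ j) : Multiplicative R →* EL R where
  toFun c := uu h c.toAdd
  map_one' := uu_zero h
  map_mul' _ _ := uu_add h _ _

theorem coe_uu_apply {i j : Fin 3} (h : i ≠ j) (c : R) (k l : Fin 3) :
    (((uu h c : EL R) : SL3 R) : Matrix (Fin 3) (Fin 3) R) k l =
      (1 : Matrix (Fin 3) (Fin 3) R) k l + Matrix.single i j c k l := by
  rw [coe_uu, Matrix.SpecialLinearGroup.transvection_coe, Matrix.add_apply]

theorem uu_injective {i j : Fin 3} (h : i ≠ j) : Function.Injective (uu h : R → EL R) := by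
  intro c d hcd
  have h1 := congrArg (fun m : EL R => ((m : SL3 R) : Matrix (Fin 3) (Fin 3) R) i j) hcd
  simp only [coe_uu_apply, Matrix.single_apply_same, add_right_inj] at h1
  exact h1

theorem uu_ne {i j : Fin 3} (h : i ≠ j) {c : R} (hc : c ≠ 0) (d : R) : uu h c ≠ uu h.symm d := by
  intro hcd
  have h1 := congrArg (fun m : EL R => ((m : SL3 R) : Matrix (Fin 3) (Fin 3) R) i j) hcd
  simp only [coe_uu_apply, Matrix.single_apply_same, add_right_inj] at h1
  rw [Matrix.single_apply_of_ne _ _ _ _ _ (by tauto)] at h1
  exact hc h1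

theorem uu_zpow {i j : Fin 3} (h : i ≠ j) (c : R) (k : ℤ) : (uu h c) ^ k = uu h (k • c) := by
  have := map_zpow (uuHom h) (Multiplicative.ofAdd c) k
  exact this.symm

variable {G : Type u} (F : G → Type u) [∀ k, Field (F k)]

/-- Projection to a coordinate. -/
def ev (j : G) : EL (∀ k, F k) →* SL3 (F j) :=
  (Matrix.SpecialLinearGroup.map (Pi.evalRingHom F j)).comp (EL (∀ k, F k)).subtype

theorem ev_uu (j : G) {a b : Fin 3} (h : a ≠ b) (c : ∀ k, F k) :
    ev F j (uu h c) = Matrix.SpecialLinearGroup.transvection h (c j) := by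
  apply Subtype.ext
  ext k l
  simp only [ev, MonoidHom.comp_apply, Subgroup.subtype_apply, coe_uu,
    Matrix.SpecialLinearGroup.map_apply_coe, RingHom.mapMatrix_apply, Matrix.map_apply,
    Matrix.SpecialLinearGroup.transvection_coe, Matrix.add_apply, map_add]
  congr 1
  · simp [Matrix.one_apply]
  · simp only [Matrix.single_apply, Pi.evalRingHom_apply]
    split_ifs <;> rfl

theorem ev_ext {m : EL (∀ k, F k)} (h : ∀ j, ev F j m = 1) : m = 1 := by
  apply Subtype.ext
  apply Subtype.ext
  ext k l j
  have h1 := congrArg (fun x : SL3 (F j) => (x : Matrix (Fin 3) (Fin 3) (F j)) k l) (h j)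
  simp only [ev, MonoidHom.comp_apply, Subgroup.subtype_apply,
    Matrix.SpecialLinearGroup.map_apply_coe, RingHom.mapMatrix_apply, Matrix.map_apply,
    Matrix.SpecialLinearGroup.coe_one] at h1
  simp only [Subgroup.coe_one, Matrix.SpecialLinearGroup.coe_one]
  rw [Matrix.one_apply] at h1 ⊢
  refine Eq.trans h1 ?_
  split_ifs <;> rfl

theorem mk_SL3_le (F : Type u) [Field F] [Infinite F] : #(SL3 F) ≤ #F := by
  have h1 : #(SL3 F) ≤ #(Matrix (Fin 3) (Fin 3) F) := mk_subtype_le _
  refine h1.trans ?_
  have h2 : #(Matrix (Fin 3) (Fin 3) F) = #(Fin 3 → Fin 3 → F) := rfl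
  rw [h2]
  simp only [mk_pi, prod_const, mk_fin, lift_natCast, lift_uzero]
  have h3 : #F ^ ((3 : ℕ) : Cardinal.{u}) = #F :=
    pow_eq (aleph0_le_mk F) (by norm_num) natCast_lt_aleph0
  rw [h3, h3]

end EL

end Pool.Agent.Q102.EXT
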