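import Mathlib.Algebra.CharZero.Infinite
import Pool.Agent.Q102.EXT.Setup
import Pool.Agent.Q102.EXT.Fields
import Pool.Agent.Q102.EXT.Choice

/-!
# Extendable endomorphisms of groups are inner or trivial
-/

set_option autoImplicit false
set_option linter.unusedSectionVars false

namespace Pool.Agent.Q102.EXT

open Monoid Cardinal

universe u v w

theorem map_transvection {R : Type u} {S : Type v} [CommRing R] [CommRing S] (f : R →+* S)
    {i j : Fin 3} (h : i ≠ j) (c : R) :
    Matrix.SpecialLinearGroup.map f (Matrix.SpecialLinearGroup.transvection h c) =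
      Matrix.SpecialLinearGroup.transvection h (f c) := by
  apply Subtype.ext
  ext k l
  simp only [Matrix.SpecialLinearGroup.map_apply_coe, RingHom.mapMatrix_apply, Matrix.map_apply,
    Matrix.SpecialLinearGroup.transvection_coe, Matrix.add_apply, map_add]
  congr 1
  · simp only [Matrix.one_apply]
    split_ifs <;> simp
  · simp only [Matrix.single_apply]
    split_ifs <;> simp

section main

variable {G : Type u} [Group G] {K : Type u} [Field K] [CharZero K] (F : ℕ → Subfield K)
  (r : G → ℕ)

/-- The product of the fields. -/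
abbrev RR : Type u := ∀ k : G, F (r k + 1)

variable (G) in
/-- The base group of the first amalgam. -/
abbrev BB : Type u := G → Multiplicative ℤ

variable (G) in
/-- The inclusion in the wreath product. -/
abbrev bL : BB G →* Wr G (Multiplicative ℤ) := SemidirectProduct.inl

/-- The inclusion in the elementary group. -/
def bM : BB G →* EL (RR F r) where
  toFun b := uu h01 (fun k => (((b k).toAdd : ℤ) : F (r k + 1)))
  map_one' := by
    rw [← uu_zero h01]
    congr 1
    funext k
    simp
  map_mul' b c := by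
    rw [← uu_add]
    congr 1
    funext k
    simp

theorem bM_apply (b : BB G) :
    bM F r b = uu h01 (fun k => (((b k).toAdd : ℤ) : F (r k + 1))) := rfl

theorem bM_injective : Function.Injective (bM F r) := by
  intro b c hbc
  rw [bM_apply, bM_apply] at hbc
  have h1 := uu_injective h01 hbc
  funext k
  have h2 := congrFun h1 k
  simp only [Int.cast_inj] at h2
  exact h2

/-- The idempotents. -/
def dl [DecidableEq G] (k : G) : BB G := Pi.mulSingle k (Multiplicative.ofAdd 1)

theorem bM_dl [DecidableEq G] (k : G) : bM F r (dl k) = uu h01 (Pi.single k 1) := by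
  rw [bM_apply]
  congr 1
  funext j
  rw [dl]
  by_cases hj : j = k
  · subst hj
    rw [Pi.mulSingle_eq_same, Pi.single_eq_same]
    simp
  · rw [Pi.mulSingle_eq_of_ne hj, Pi.single_eq_of_ne hj]
    simp

theorem conj_dl [DecidableEq G] (g k : G) : (SemidirectProduct.inr g : Wr G (Multiplicative ℤ)) *
    bL G (dl k) * (SemidirectProduct.inr g)⁻¹ = bL G (dl (g * k)) := by
  rw [← map_inv, ← SemidirectProduct.inl_aut]
  congr 1
  funext j
  rw [shift_apply, dl, dl]
  by_cases hj : j = g * k
  · subst hj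
    rw [inv_mul_cancel_left, Pi.mulSingle_eq_same, Pi.mulSingle_eq_same]
  · rw [Pi.mulSingle_eq_of_ne hj, Pi.mulSingle_eq_of_ne]
    rintro rfl
    exact hj (by simp)

/-- The image of the integers. -/
def tr (K : Type u) [Field K] : Multiplicative ℤ →* SL3 K where
  toFun c := Matrix.SpecialLinearGroup.transvection h01 ((c.toAdd : ℤ) : K)
  map_one' := by
    simp [Matrix.SpecialLinearGroup.transvection_coeff_zero]
  map_mul' b c := by
    rw [← Matrix.SpecialLinearGroup.transvection_add]
    congr 1
    simp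

/-- All coordinates, in the large field. -/
def coords : EL (RR F r) →* (G → SL3 K) :=
  MonoidHom.pi fun j =>
    (Matrix.SpecialLinearGroup.map (F (r j + 1)).subtype).comp (ev (fun k => F (r k + 1)) j)

theorem coords_apply (m : EL (RR F r)) (j : G) : coords F r m j =
    Matrix.SpecialLinearGroup.map (F (r j + 1)).subtype (ev (fun k => F (r k + 1)) j m) := rfl

/-- The homomorphism from the first amalgam to the wreath product. -/
def Psi : P1 (bL G) (bM F r) →* Wr G (SL3 K) :=
  amLift (wrMap (tr K)) (SemidirectProduct.inl.comp (coords F r)) (by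
    intro b
    rw [MonoidHom.comp_apply]
    change wrMap (tr K) (SemidirectProduct.inl b) = _
    rw [wrMap, SemidirectProduct.map_inl]
    congr 1
    funext j
    rw [coords_apply, bM_apply, ev_uu, map_transvection]
    change Matrix.SpecialLinearGroup.transvection h01 (((b j).toAdd : ℤ) : K) = _
    congr 1)

theorem isUnit_of_ne {a : RR F r} (h : ∀ k, a k ≠ 0) : IsUnit a := by
  refine IsUnit.of_mul_eq_one (fun k => (a k)⁻¹) ?_
  funext k
  exact mul_inv_cancel₀ (h k)

theorem isUnit_two : IsUnit (2 : RR F r) :=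
  isUnit_of_ne F r fun k => (two_ne_zero : (2 : F (r k + 1)) ≠ 0)

theorem triv_R (hF : ∀ m n, m < n → #(F m) < #(F n)) (n : ℕ) (hn : ∀ k, n ≤ r k + 1)
    {T : Type u} [Group T] (hT : #T < #(F n)) (θ : EL (RR F r) →* T) (m : EL (RR F r)) :
    θ m = 1 := by
  have h1 : ∀ k, Nonempty (F n ↪ F (r k + 1)) := by
    intro k
    have h2 : #(F n) ≤ #(F (r k + 1)) := by
      rcases (hn k).lt_or_eq with h | h
      · exact (hF _ _ h).le
      · rw [h]
    exact h2
  have h2 : ∀ k, ∃ e : F n → F (r k + 1), Function.Injective e := fun k =>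
    ⟨(h1 k).some, (h1 k).some.injective⟩
  choose e he using h2
  refine triv_of_card θ (Λ := F n) (fun x k => e k x) ?_ hT m
  intro a b hab
  exact isUnit_of_ne F r fun k => (sub_ne_zero.2 fun h => hab (he k h) : e k a - e k b ≠ 0)

theorem coord_eq_one [DecidableEq G] (hF : ∀ m n, m < n → #(F m) < #(F n))
    (θ : EL (RR F r) →* EL (RR F r)) (j k : G) (hjk : r j < r k) :
    ev (fun k => F (r k + 1)) j (θ (bM F r (dl k))) = 1 := by
  have hinf : Infinite (F (r j + 1)) := CharZero.infinite _
  have h1 : #(SL3 (F (r j + 1))) < #(F (r k + 1)) :=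
    (mk_SL3_le _).trans_lt (hF _ _ (by omega))
  have h2 : ¬ Function.Injective fun x : F (r k + 1) =>
      ev (fun k => F (r k + 1)) j (θ (uu h01 (Pi.single k x))) := by
    intro hinj
    exact absurd (mk_le_of_injective hinj) (not_le.2 h1)
  rw [Function.Injective] at h2
  push Not at h2
  obtain ⟨x, x', hxx, hne⟩ := h2
  have h3 : ((ev (fun k => F (r k + 1)) j).comp θ) (uu h01 (Pi.single k (x - x'))) = 1 := by
    rw [Pi.single_sub, uu_sub, map_mul, map_inv, MonoidHom.comp_apply, MonoidHom.comp_apply, hxx,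
      mul_inv_cancel]
  have h4 := kill _ h01 _ h3 h01 (Pi.single k (x - x')⁻¹)
  rw [← Pi.single_mul, mul_inv_cancel₀ (sub_ne_zero.2 hne)] at h4
  rw [bM_dl]
  exact h4

theorem coords_ne_one {m : EL (RR F r)} {j : G} (h : ev (fun k => F (r k + 1)) j m ≠ 1) :
    coords F r m j ≠ 1 := by
  intro h1
  apply h
  rw [coords_apply] at h1
  apply Subtype.ext
  ext k l
  have h2 := congrArg (fun z : SL3 K => (z : Matrix (Fin 3) (Fin 3) K) k l) h1
  simp only [Matrix.SpecialLinearGroup.map_apply_coe, RingHom.mapMatrix_apply, Matrix.map_apply,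
    Matrix.SpecialLinearGroup.coe_one, Subfield.subtype_apply] at h2
  rw [Matrix.SpecialLinearGroup.coe_one]
  rw [Matrix.one_apply] at h2 ⊢
  rw [h2]
  split_ifs <;> simp

theorem lemmaA (hL : #(Wr G (Multiplicative ℤ)) < #(F 0))
    (hF : ∀ m n, m < n → #(F m) < #(F n)) (α : G →* G)
    (hext : ∀ (H : Type u) [Group H] (f : G →* H), ∃ β : H →* H, β.comp f = f.comp α)
    (g₀ : G) (hg₀ : α g₀ ≠ 1) :
    Function.Injective α ∧ ∃ u s : G, ∀ k, r k ≤ r (u⁻¹ * α k * u * s) := by
  classical
  let y : EL (RR F r) := uu h10 (Pi.single 1 1)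
  let n₁ : EL (F 0) := uu h01 1
  let x : G → Wr G (Multiplicative ℤ) := fun g => SemidirectProduct.inr g
  obtain ⟨β, hβ⟩ := hext (P2 (bL G) (bM F r) y (x g₀) n₁)
    ((j1 (bL G) (bM F r) y (x g₀) n₁).comp
      ((inA (bL G) (bM F r)).comp SemidirectProduct.inr))
  have hβ' : ∀ g, β (j1 (bL G) (bM F r) y (x g₀) n₁ (inA (bL G) (bM F r) (x g))) =
      j1 (bL G) (bM F r) y (x g₀) n₁ (inA (bL G) (bM F r) (x (α g))) := fun g =>
    DFunLike.congr_fun hβ g
  have hbL : Function.Injective (bL G) := SemidirectProduct.inl_injective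
  have hbM : Function.Injective (bM F r) := bM_injective F r
  have hx : ∀ g, g ≠ 1 → ∀ l : Wr G (Multiplicative ℤ), l * x g * l⁻¹ ∉ (bL G).range := by
    rintro g hg l ⟨b, hb⟩
    have h1 := congrArg SemidirectProduct.right hb
    simp only [SemidirectProduct.right_inl, SemidirectProduct.mul_right, x,
      SemidirectProduct.right_inr, SemidirectProduct.inv_right] at h1
    apply hg
    calc g = l.right⁻¹ * (l.right * g * l.right⁻¹) * l.right := by group
      _ = 1 := by rw [← h1]; group
  have hg₀1 : g₀ ≠ 1 := by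
    rintro rfl
    exact hg₀ (map_one α)
  have hx0 : x g₀ ∉ (bL G).range := by
    have := hx g₀ hg₀1 1
    simpa using this
  have hB : ∀ b : BB G, b * b = 1 → b = 1 := by
    intro b hb
    funext k
    have h1 : b k * b k = 1 := congrFun hb k
    have h2 : (b k).toAdd + (b k).toAdd = 0 := h1
    have h3 : (b k).toAdd = 0 := by omega
    exact h3
  have h2S : IsUnit (2 : F 0) := (two_ne_zero : (2 : F 0) ≠ 0).isUnit
  have hy : y ∉ (bM F r).range := by
    rintro ⟨b, hb⟩
    have h1 : (Pi.single 1 1 : RR F r) ≠ 0 := by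
      intro h
      have := congrFun h 1
      rw [Pi.single_eq_same] at this
      exact one_ne_zero this
    exact uu_ne h10 h1 _ hb.symm
  have hn₁ : ∀ k : ℤ, n₁ ^ k = 1 → k = 0 := by
    intro k hk
    rw [uu_zpow, ← uu_zero h01] at hk
    have := uu_injective h01 hk
    simpa using this
  have hinf : Infinite (F 0) := CharZero.infinite _
  have hRL : ∀ (θ : EL (RR F r) →* Wr G (Multiplicative ℤ)) (m : EL (RR F r)), θ m = 1 :=
    triv_R F r hF 0 (fun k => Nat.zero_le _) hL
  have hSL : ∀ (θ : EL (F 0) →* Wr G (Multiplicative ℤ)) (m : EL (F 0)), θ m = 1 :=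
    fun θ m => triv_of_card θ (Λ := F 0) id (fun a b hab => (sub_ne_zero.2 hab).isUnit) hL m
  have hRS : ∀ (θ : EL (RR F r) →* EL (F 0)) (m : EL (RR F r)), θ m = 1 :=
    triv_R F r hF 1 (fun k => by omega)
      (((mk_subtype_le _).trans (mk_SL3_le _)).trans_lt (hF 0 1 one_pos))
  have hkill : ∀ (T : Type u) [Group T] (θ : EL (RR F r) →* T),
      θ (bM F r (dl 1)) = 1 → θ y = 1 := by
    intro T _ θ hθ
    rw [bM_dl] at hθ
    have := kill θ h01 _ hθ h10 (Pi.single 1 1)
    rwa [← Pi.single_mul, one_mul] at this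
  obtain ⟨h₁, θ, hc, hθ⟩ := core hbL hbM hB (isUnit_two F r) h2S hy hn₁ hRL hSL hRS hx0
    (x (α g₀)) (hx (α g₀) hg₀) (dl 1) (dl g₀) (by
      have := conj_dl g₀ (1 : G)
      rwa [mul_one] at this) hkill β (hβ' g₀)
  have hj1 : Function.Injective (j1 (bL G) (bM F r) y (x g₀) n₁) :=
    inA_injective (zh_injective (ww_zpow hbL hbM hx0 hy)) (zh_injective hn₁)
  have hstar : ∀ g, inA (bL G) (bM F r) (x (α g)) *
      (h₁ * inB (bL G) (bM F r) (θ (bM F r (dl 1))) * h₁⁻¹) *
      (inA (bL G) (bM F r) (x (α g)))⁻¹ =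
      h₁ * inB (bL G) (bM F r) (θ (bM F r (dl g))) * h₁⁻¹ := by
    intro g
    apply hj1
    have h3 : inA (bL G) (bM F r) (x g) * inB (bL G) (bM F r) (bM F r (dl 1)) *
        (inA (bL G) (bM F r) (x g))⁻¹ = inB (bL G) (bM F r) (bM F r (dl g)) := by
      have h5 := conj_dl g (1 : G)
      rw [mul_one] at h5
      rw [← inA_eq_inB, ← inA_eq_inB, ← map_inv, ← map_mul, ← map_mul, ← h5]
    have h4 := congrArg (fun z => β (j1 (bL G) (bM F r) y (x g₀) n₁ z)) h3
    simp only [map_mul, map_inv] at h4
    rw [hθ, hθ, hβ'] at h4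
    rw [map_mul, map_mul _ (inA (bL G) (bM F r) (x (α g))), map_inv]
    exact h4
  constructor
  · rw [injective_iff_map_eq_one]
    intro k hk
    by_contra hk1
    have h1 := hstar k
    have h2 : x (α k) = 1 := by
      rw [hk]
      exact map_one _
    rw [h2, map_one, one_mul, inv_one, mul_one, mul_left_inj, mul_right_inj] at h1
    have h3 := inB_injective hbL hbM h1
    rw [bM_dl, bM_dl] at h3
    have h4 : θ (uu h02 (Pi.single 1 1 : RR F r)) = 1 := by
      have h5 : (Pi.single 1 1 : RR F r) = Pi.single 1 1 * Pi.single 1 1 := by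
        rw [← Pi.single_mul, one_mul]
      have h6 : (Pi.single k 1 * Pi.single 1 1 : RR F r) = 0 := by
        funext j
        rw [Pi.mul_apply]
        by_cases hj : j = k
        · rw [hj, Pi.single_eq_of_ne hk1, mul_zero]
          rfl
        · rw [Pi.single_eq_of_ne hj, zero_mul]
          rfl
      rw [h5, ← comm_uu h01 h12 h02, map_mul, map_mul, map_mul, map_inv, map_inv, h3,
        ← map_inv, ← map_inv, ← map_mul, ← map_mul, ← map_mul, comm_uu h01 h12 h02, h6, uu_zero,
        map_one]
    apply hc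
    rw [bM_dl]
    have := kill θ h02 _ h4 h01 1
    rwa [mul_one] at this
  · obtain ⟨s, hs⟩ : ∃ s, ev (fun k => F (r k + 1)) s (θ (bM F r (dl 1))) ≠ 1 := by
      by_contra hcon
      push Not at hcon
      exact hc (ev_ext _ hcon)
    refine ⟨(Psi F r h₁).right, s, fun g => ?_⟩
    by_contra hlt
    rw [not_le] at hlt
    have h1 := congrArg (Psi F r) (hstar g)
    simp only [map_mul, map_inv] at h1
    have h2 : ∀ g, Psi F r (inA (bL G) (bM F r) (x g)) = SemidirectProduct.inr g := by
      intro g
      rw [Psi, amLift_inA]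
      change wrMap (tr K) (SemidirectProduct.inr g) = _
      rw [wrMap, SemidirectProduct.map_inr]
      rfl
    have h3 : ∀ m, Psi F r (inB (bL G) (bM F r) m) = SemidirectProduct.inl (coords F r m) := by
      intro m
      rw [Psi, amLift_inB]
      rfl
    rw [h2, h3, h3] at h1
    have h4 := wr_conj _ _ _ _ h1 s (coords_ne_one F r hs)
    apply h4
    rw [coords_apply, coord_eq_one F r hF θ _ g hlt, map_one]

end main

/-- Every extendable endomorphism of a group is inner or trivial. -/
theorem inner_or_trivial {G : Type u} [Group G] (α : G →* G)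
    (hext : ∀ (H : Type u) [Group H] (f : G →* H), ∃ β : H →* H, β.comp f = f.comp α) :
    (∃ c, ∀ g, α g = c * g * c⁻¹) ∨ ∀ g, α g = 1 := by
  by_cases htr : ∀ g, α g = 1
  · exact Or.inr htr
  · left
    push Not at htr
    obtain ⟨g₀, hg₀⟩ := htr
    obtain ⟨K, _, _, F, hL, hF⟩ := exists_fields #(Wr G (Multiplicative ℤ))
    exact inner_of_forall α (lemmaA F (fun _ => 0) hL hF α hext g₀ hg₀).1
      fun r => (lemmaA F r hL hF α hext g₀ hg₀).2

end Pool.Agent.Q102.EXT
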