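import Pool.Agent.Q102.EXT.EL

/-!
# Amalgamated products of two groups
-/

set_option autoImplicit false

namespace Pool.Agent.Q102.EXT

open Monoid

universe u v w

/-- The family of two types. -/
def Fam (A B : Type u) : Bool → Type u
  | true => A
  | false => B

instance instGroupFam (A B : Type u) [Group A] [Group B] : ∀ i, Group (Fam A B i)
  | true => inferInstanceAs (Group A)
  | false => inferInstanceAs (Group B)

variable {C A B : Type u} [Group C] [Group A] [Group B]

/-- The family of two homomorphisms. -/
def famHom (a : C →* A) (b : C →* B) : ∀ i, C →* Fam A B i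
  | true => a
  | false => b

/-- The amalgamated product of the groups `A` and `B`. -/
abbrev Am (a : C →* A) (b : C →* B) : Type u := PushoutI (famHom a b)

/-- The first factor. -/
def inA (a : C →* A) (b : C →* B) : A →* Am a b := PushoutI.of (φ := famHom a b) true

/-- The second factor. -/
def inB (a : C →* A) (b : C →* B) : B →* Am a b := PushoutI.of (φ := famHom a b) false

variable {a : C →* A} {b : C →* B}

theorem famHom_injective (ha : Function.Injective a) (hb : Function.Injective b) :
    ∀ i, Function.Injective (famHom a b i)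
  | true => ha
  | false => hb

theorem inA_injective (ha : Function.Injective a) (hb : Function.Injective b) :
    Function.Injective (inA a b) := PushoutI.of_injective (famHom_injective ha hb) true

theorem inB_injective (ha : Function.Injective a) (hb : Function.Injective b) :
    Function.Injective (inB a b) := PushoutI.of_injective (famHom_injective ha hb) false

theorem inA_eq_inB (c : C) : inA a b (a c) = inB a b (b c) :=
  (PushoutI.of_apply_eq_base (famHom a b) true c).trans
    (PushoutI.of_apply_eq_base (famHom a b) false c).symm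

/-- The homomorphism from the amalgamated product given by homomorphisms of the factors. -/
def amLift {T : Type v} [Group T] (f : A →* T) (g : B →* T) (h : ∀ c, f (a c) = g (b c)) :
    Am a b →* T :=
  PushoutI.lift (fun i => match i with | true => f | false => g) (f.comp a) (by
    intro i
    match i with
    | true => rfl
    | false => ext c; exact (h c).symm)

theorem amLift_inA {T : Type v} [Group T] (f : A →* T) (g : B →* T) (h : ∀ c, f (a c) = g (b c))
    (x : A) : amLift f g h (inA a b x) = f x :=
  PushoutI.lift_of _ _ _ _

theorem amLift_inB {T : Type v} [Group T] (f : A →* T) (g : B →* T) (h : ∀ c, f (a c) = g (b c))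
    (x : B) : amLift f g h (inB a b x) = g x :=
  PushoutI.lift_of _ _ _ _

theorem conjA (ha : Function.Injective a) (hb : Function.Injective b) {y : A}
    (hy : ∀ g : A, g * y * g⁻¹ ∉ a.range) {p : Am a b} {z : A}
    (h : p * inA a b y * p⁻¹ = inA a b z) : ∃ q : A, p = inA a b q := by
  obtain ⟨-, q, hq⟩ := of_conj (famHom_injective ha hb) (i := true) y hy p (j := true) z h
  exact ⟨q, hq⟩

theorem conjA' (ha : Function.Injective a) (hb : Function.Injective b) {y : A}
    (hy : ∀ g : A, g * y * g⁻¹ ∉ a.range) {p : Am a b} {z : B}
    (h : p * inA a b y * p⁻¹ = inB a b z) : False := by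
  obtain ⟨h1, -⟩ := of_conj (famHom_injective ha hb) (i := true) y hy p (j := false) z h
  cases h1

theorem rigid2 (ha : Function.Injective a) (hb : Function.Injective b)
    (hC : ∀ c : C, c * c = 1 → c = 1) {R : Type w} [CommRing R] (h2 : IsUnit (2 : R))
    (θ : EL R →* Am a b) (hθ : ∃ m, θ m ≠ 1) :
    (∃ (p : Am a b) (θ' : EL R →* A), ∀ m, θ m = p * inA a b (θ' m) * p⁻¹) ∨
    (∃ (p : Am a b) (θ' : EL R →* B), ∀ m, θ m = p * inB a b (θ' m) * p⁻¹) := by
  obtain ⟨p, i, θ', h⟩ := rigid (famHom_injective ha hb) hC h2 θ hθ
  cases i with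
  | true => exact Or.inl ⟨p, θ', h⟩
  | false => exact Or.inr ⟨p, θ', h⟩

theorem red_BA {x : A} {y : B} (hx : x ∉ a.range) (hy : y ∉ b.range) :
    Red (famHom a b) false (!false) 2 (inB a b y * inA a b x) := by
  have h1 : Red (famHom a b) true true 1 (inA a b x) := Red.single (φ := famHom a b) true x hx
  exact Red.cons (φ := famHom a b) false y hy h1

theorem zpow_ne_A (ha : Function.Injective a) (hb : Function.Injective b) {x : A} {y : B}
    (hx : x ∉ a.range) (hy : y ∉ b.range) (k : ℤ) (hk : k ≠ 0) (p : Am a b) (z : A) :
    (inB a b y * inA a b x) ^ k ≠ p * inA a b z * p⁻¹ :=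
  (red_BA hx hy).pow_ne (famHom_injective ha hb) k hk p true z

theorem zpow_ne_B (ha : Function.Injective a) (hb : Function.Injective b) {x : A} {y : B}
    (hx : x ∉ a.range) (hy : y ∉ b.range) (k : ℤ) (hk : k ≠ 0) (p : Am a b) (z : B) :
    (inB a b y * inA a b x) ^ k ≠ p * inB a b z * p⁻¹ :=
  (red_BA hx hy).pow_ne (famHom_injective ha hb) k hk p false z

theorem zpow_ne_one (ha : Function.Injective a) (hb : Function.Injective b) {x : A} {y : B}
    (hx : x ∉ a.range) (hy : y ∉ b.range) (k : ℤ) (hk : k ≠ 0) :
    (inB a b y * inA a b x) ^ k ≠ 1 := by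
  have := zpow_ne_A ha hb hx hy k hk 1 1
  rwa [map_one, mul_one, one_mul, inv_one] at this

end Pool.Agent.Q102.EXT
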